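import Mathlib

/-!
Density lemma, part 1 (MP_78e9a5_nt, TensorGenerated): Lie subalgebras of the matrices which
contain the diagonal matrices and are normalised by an irreducible and primitive group.
-/

open Matrix

namespace Pool.Agent.Helper47.TG

variable {k : Type*} [Field k] {n : Type*} [Fintype n] [DecidableEq n]

/-- `G` acts irreducibly on `k ^ n` -/
def Irred (G : Subgroup (GL n k)) : Prop := ∀ U : Submodule k (n → k),
  (∀ γ ∈ G, ∀ u ∈ U, (γ : Matrix n n k) *ᵥ u ∈ U) → U = ⊥ ∨ U = ⊤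

/-- `G` does not permute the summands of a direct sum decomposition of `k ^ n` with at least two
summands -/
def Primit (G : Subgroup (GL n k)) : Prop := ∀ S : Set (Submodule k (n → k)), S.Nontrivial →
  (∀ U ∈ S, U ≠ ⊥) → sSupIndep S → sSup S = ⊤ →
  ¬ ∀ γ ∈ G, ∀ U ∈ S, U.map (Matrix.mulVecLin (γ : Matrix n n k)) ∈ S

section

variable (h : Submodule k (Matrix n n k))

/-- the matrix units in `h` -/
def Rel (i j : n) : Prop := single i j (1 : k) ∈ h

variable {h}

theorem rel_of_ne (h2 : (2 : k) ≠ 0) (hdiag : ∀ j, single j j (1 : k) ∈ h)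
    (hbr : ∀ X ∈ h, ∀ Y ∈ h, X * Y - Y * X ∈ h) {X : Matrix n n k} (hX : X ∈ h) {i j : n}
    (hij : X i j ≠ 0) : Rel h i j := by
  by_cases he : i = j
  · subst he
    exact hdiag i
  have he' : j ≠ i := fun h => he h.symm
  have h1 := hbr _ (hdiag i) _ hX
  have h3 := hbr _ (hdiag j) _ h1
  have e1 : single i i (1 : k) * X * single j j 1 = single i j (X i j) := by
    rw [single_mul_mul_single]
    simp
  have e2 : single j j (1 : k) * X * single i i 1 = single j i (X j i) := by
    rw [single_mul_mul_single]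
    simp
  have e3 : single j j (1 : k) * single i i 1 = 0 := by
    rw [single_mul_single_of_ne _ _ _ _ he']
  have e4 : single i i (1 : k) * single j j 1 = 0 := by
    rw [single_mul_single_of_ne _ _ _ _ he]
  have h5 : single j j (1 : k) * (single i i 1 * X - X * single i i 1) -
      (single i i 1 * X - X * single i i 1) * single j j 1 =
      -(single i j (X i j) + single j i (X j i)) := by
    rw [mul_sub, sub_mul, ← mul_assoc, e3, zero_mul, ← mul_assoc, e2, e1, mul_assoc X, e4,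
      mul_zero]
    abel
  rw [h5] at h3
  have h4 := hbr _ (hdiag i) _ h3
  have h6 : single i i (1 : k) * (-(single i j (X i j) + single j i (X j i))) -
      (-(single i j (X i j) + single j i (X j i))) * single i i 1 =
      -single i j (X i j) + single j i (X j i) := by
    rw [mul_neg, neg_mul, mul_add, add_mul, single_mul_single_same,
      single_mul_single_of_ne _ _ _ _ he, single_mul_single_of_ne _ _ _ _ he',
      single_mul_single_same]
    simp
  rw [h6] at h4
  have h7 := h.add_mem h3 h4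
  have h8 : (-(single i j (X i j) + single j i (X j i)) +
      (-single i j (X i j) + single j i (X j i))) = (-2 * X i j) • single i j (1 : k) := by
    rw [smul_single, smul_eq_mul, mul_one]
    have : single i j (-2 * X i j) = -single i j (X i j) + -single i j (X i j) := by
      ext a b
      simp only [Matrix.add_apply, Matrix.neg_apply, single_apply]
      split_ifs <;> ring
    rw [this]
    abel
  rw [h8] at h7
  have h9 : (-2 * X i j) ≠ 0 := mul_ne_zero (neg_ne_zero.mpr h2) hij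
  exact (h.smul_mem_iff h9).1 h7

theorem rel_trans (hdiag : ∀ j, single j j (1 : k) ∈ h)
    (hbr : ∀ X ∈ h, ∀ Y ∈ h, X * Y - Y * X ∈ h) {a b c : n} (h1 : Rel h a b) (h2 : Rel h b c) :
    Rel h a c := by
  by_cases hac : a = c
  · subst hac
    exact hdiag a
  have h3 := hbr _ h1 _ h2
  rw [single_mul_single_same, single_mul_single_of_ne _ _ _ _ (fun h => hac h.symm), sub_zero,
    mul_one] at h3
  exact h3

/-- the radical of the trace form vanishes, so the relation is symmetric -/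
theorem rel_symm (h2 : (2 : k) ≠ 0) (hdiag : ∀ j, single j j (1 : k) ∈ h)
    (hbr : ∀ X ∈ h, ∀ Y ∈ h, X * Y - Y * X ∈ h) {G : Subgroup (GL n k)}
    (hG : ∀ γ ∈ G, ∀ X ∈ h, (γ : Matrix n n k) * X * ((γ⁻¹ : GL n k) : Matrix n n k) ∈ h)
    (hirr : Irred G) {a b : n} (hab : Rel h a b) : Rel h b a := by
  classical
  by_contra hba
  -- the radical of the trace form
  let r : Set (Matrix n n k) := {X | X ∈ h ∧ ∀ Y ∈ h, trace (X * Y) = 0}
  have hr1 : ∀ X ∈ r, ∀ i j, X i j ≠ 0 → Rel h i j ∧ ¬ Rel h j i := by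
    intro X hX i j hij
    refine ⟨rel_of_ne h2 hdiag hbr hX.1 hij, fun hji => hij ?_⟩
    have := hX.2 _ hji
    rw [trace_mul_single] at this
    simpa using this
  have hrG : ∀ γ ∈ G, ∀ X ∈ r, (γ : Matrix n n k) * X * ((γ⁻¹ : GL n k) : Matrix n n k) ∈ r := by
    intro γ hγ X hX
    refine ⟨hG γ hγ X hX.1, fun Y hY => ?_⟩
    have h3 := hG γ⁻¹ (G.inv_mem hγ) Y hY
    have h4 := hX.2 _ h3
    rw [inv_inv] at h4
    rw [← mul_assoc, ← mul_assoc] at h4
    have e1 : trace ((γ : Matrix n n k) * X * ((γ⁻¹ : GL n k) : Matrix n n k) * Y) =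
        trace (X * ((γ⁻¹ : GL n k) : Matrix n n k) * Y * (γ : Matrix n n k)) := by
      rw [mul_assoc, mul_assoc, trace_mul_comm, ← mul_assoc]
    rw [e1, h4]
  -- the image of the radical
  let U : Submodule k (n → k) := Submodule.span k {v | ∃ X ∈ r, ∃ u : n → k, v = X *ᵥ u}
  have hU : ∀ γ ∈ G, ∀ u ∈ U, (γ : Matrix n n k) *ᵥ u ∈ U := by
    intro γ hγ u hu
    induction hu using Submodule.span_induction with
    | mem v hv =>
      obtain ⟨X, hX, u, rfl⟩ := hv
      refine Submodule.subset_span ⟨_, hrG γ hγ X hX, (γ : Matrix n n k) *ᵥ u, ?_⟩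
      have e1 : ((γ⁻¹ : GL n k) : Matrix n n k) * (γ : Matrix n n k) = 1 := by
        rw [← Units.val_mul, inv_mul_cancel, Units.val_one]
      rw [mulVec_mulVec, mulVec_mulVec, mul_assoc _ _ (γ : Matrix n n k), e1, mul_one]
    | zero => rw [mulVec_zero]; exact U.zero_mem
    | add x y _ _ hx hy => rw [mulVec_add]; exact U.add_mem hx hy
    | smul c x _ hx => rw [mulVec_smul]; exact U.smul_mem c hx
  -- a maximal element
  have hmax : ∃ j, ∀ j', Rel h j j' → Rel h j' j := by
    let P : Preorder n :=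
      { le := Rel h
        le_refl := hdiag
        le_trans := fun _ _ _ h1 h3 => rel_trans hdiag hbr h1 h3 }
    obtain ⟨j, _, hj⟩ := Finset.exists_maximal (Finset.univ_nonempty_iff.2 ⟨a⟩ : (Finset.univ : Finset n).Nonempty)
    exact ⟨j, fun j' hj' => hj (Finset.mem_univ _) hj'⟩
  obtain ⟨j, hj⟩ := hmax
  have hUj : ∀ u ∈ U, u j = 0 := by
    intro u hu
    induction hu using Submodule.span_induction with
    | mem v hv =>
      obtain ⟨X, hX, u, rfl⟩ := hv
      rw [mulVec, dotProduct]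
      refine Finset.sum_eq_zero fun i _ => ?_
      by_cases hji : X j i = 0
      · rw [hji, zero_mul]
      · obtain ⟨h3, h4⟩ := hr1 X hX j i hji
        exact absurd (hj i h3) h4
    | zero => rfl
    | add x y _ _ hx hy => rw [Pi.add_apply, hx, hy, add_zero]
    | smul c x _ hx => rw [Pi.smul_apply, hx, smul_zero]
  have hr0 : single a b (1 : k) ∈ r := by
    refine ⟨hab, fun Y hY => ?_⟩
    rw [trace_single_mul]
    by_contra hne
    refine hba (rel_of_ne h2 hdiag hbr hY ?_)
    intro h0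
    rw [h0] at hne
    simp at hne
  rcases hirr U hU with h3 | h3
  · have h4 : single a b (1 : k) *ᵥ (Pi.single b 1) ∈ U :=
      Submodule.subset_span ⟨_, hr0, _, rfl⟩
    rw [h3, Submodule.mem_bot] at h4
    have h5 := congrFun h4 a
    simp at h5
  · have h4 : (Pi.single j 1 : n → k) ∈ U := by rw [h3]; exact Submodule.mem_top
    have h5 := hUj _ h4
    simp at h5

/-- the vectors supported on the class of `j` -/
def Vc (h : Submodule k (Matrix n n k)) (j : n) : Submodule k (n → k) where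
  carrier := {v | ∀ i, ¬ Rel h i j → v i = 0}
  zero_mem' := fun _ _ => rfl
  add_mem' := fun {a b} ha hb i hi => by rw [Pi.add_apply, ha i hi, hb i hi, add_zero]
  smul_mem' := fun c a ha i hi => by rw [Pi.smul_apply, ha i hi, smul_zero]

theorem Vc_stable (h2 : (2 : k) ≠ 0) (hdiag : ∀ j, single j j (1 : k) ∈ h)
    (hbr : ∀ X ∈ h, ∀ Y ∈ h, X * Y - Y * X ∈ h) (j : n) (X : Matrix n n k) (hX : X ∈ h)
    (v : n → k) (hv : v ∈ Vc h j) : X *ᵥ v ∈ Vc h j := by
  intro i hi
  rw [mulVec, dotProduct]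
  refine Finset.sum_eq_zero fun l _ => ?_
  by_cases h3 : X i l = 0
  · rw [h3, zero_mul]
  by_cases h4 : Rel h l j
  · exact absurd (rel_trans hdiag hbr (rel_of_ne h2 hdiag hbr hX h3) h4) hi
  · rw [hv l h4, mul_zero]

theorem Vc_le (hdiag : ∀ j, single j j (1 : k) ∈ h) (U : Submodule k (n → k))
    (hU : ∀ X ∈ h, ∀ u ∈ U, X *ᵥ u ∈ U) (j : n) (u : n → k) (hu : u ∈ U) (huj : u j ≠ 0) :
    Vc h j ≤ U := by
  have h1 : (Pi.single j 1 : n → k) ∈ U := by
    have h3 := hU _ (hdiag j) u hu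
    have h4 : single j j (1 : k) *ᵥ u = u j • (Pi.single j 1 : n → k) := by
      rw [single_mulVec, one_mul]
      ext i
      by_cases hi : i = j
      · subst hi
        simp
      · simp [hi]
    rw [h4] at h3
    exact (U.smul_mem_iff huj).1 h3
  intro v hv
  have h5 : v = ∑ i, v i • (Pi.single i 1 : n → k) := by
    ext i
    rw [Finset.sum_apply]
    simp [Pi.single_apply]
  rw [h5]
  refine U.sum_mem fun i _ => ?_
  by_cases hi : Rel h i j
  · refine U.smul_mem _ ?_
    have h3 := hU _ hi _ h1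
    have h4 : single i j (1 : k) *ᵥ (Pi.single j 1 : n → k) = Pi.single i 1 := by
      rw [single_mulVec]
      ext i'
      by_cases hi' : i' = i
      · subst hi'
        simp
      · simp [hi']
    rwa [h4] at h3
  · rw [hv i hi, zero_smul]
    exact U.zero_mem

theorem Vc_eq (hdiag : ∀ j, single j j (1 : k) ∈ h)
    (hbr : ∀ X ∈ h, ∀ Y ∈ h, X * Y - Y * X ∈ h) (hsymm : ∀ i j, Rel h i j → Rel h j i) {i j : n}
    (hij : Rel h i j) : Vc h i = Vc h j := by
  refine le_antisymm (fun v hv l hl => hv l fun h3 => hl ?_) fun v hv l hl => hv l fun h3 => hl ?_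
  · exact rel_trans hdiag hbr h3 (hsymm _ _ hij)
  · exact rel_trans hdiag hbr h3 hij

omit [Fintype n] in
theorem single_mem_Vc (_ : ∀ j, single j j (1 : k) ∈ h) {i j : n} :
    (Pi.single i 1 : n → k) ∈ Vc h j ↔ Rel h i j := by
  constructor
  · intro h3
    by_contra h4
    have := h3 i h4
    simp at this
  · intro h3 l hl
    by_cases hi : l = i
    · subst hi
      exact absurd h3 hl
    · simp [hi]

/-- **The block lemma.** -/
theorem lie_top (h2 : (2 : k) ≠ 0) (h : Submodule k (Matrix n n k))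
    (hdiag : ∀ j, single j j (1 : k) ∈ h)
    (hbr : ∀ X ∈ h, ∀ Y ∈ h, X * Y - Y * X ∈ h) (G : Subgroup (GL n k))
    (hG : ∀ γ ∈ G, ∀ X ∈ h, (γ : Matrix n n k) * X * ((γ⁻¹ : GL n k) : Matrix n n k) ∈ h)
    (hirr : Irred G) (hprim : Primit G) : h = ⊤ := by
  classical
  have hsymm : ∀ i j, Rel h i j → Rel h j i := fun i j hij =>
    rel_symm h2 hdiag hbr hG hirr hij
  -- `G` permutes the `Vc`
  have hst : ∀ γ ∈ G, ∀ j, ∀ X ∈ h, ∀ u ∈ (Vc h j).map (Matrix.mulVecLin (γ : Matrix n n k)),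
      X *ᵥ u ∈ (Vc h j).map (Matrix.mulVecLin (γ : Matrix n n k)) := by
    intro γ hγ j X hX u hu
    obtain ⟨v, hv, rfl⟩ := hu
    have h3 := hG γ⁻¹ (G.inv_mem hγ) X hX
    rw [inv_inv] at h3
    refine ⟨_, Vc_stable h2 hdiag hbr j _ h3 v hv, ?_⟩
    have e1 : (γ : Matrix n n k) * ((γ⁻¹ : GL n k) : Matrix n n k) = 1 := by
      rw [← Units.val_mul, mul_inv_cancel, Units.val_one]
    rw [mulVecLin_apply, mulVecLin_apply, mulVec_mulVec, mulVec_mulVec, ← mul_assoc, ← mul_assoc,
      e1, one_mul]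
  have hne : ∀ γ : GL n k, ∀ v : n → k, v ≠ 0 → ∃ i, ((γ : Matrix n n k) *ᵥ v) i ≠ 0 := by
    intro γ v hv
    by_contra hcon
    push Not at hcon
    have h3 : (γ : Matrix n n k) *ᵥ v = 0 := funext hcon
    refine hv ?_
    have e1 : ((γ⁻¹ : GL n k) : Matrix n n k) * (γ : Matrix n n k) = 1 := by
      rw [← Units.val_mul, inv_mul_cancel, Units.val_one]
    rw [← one_mulVec v, ← e1, ← mulVec_mulVec, h3, mulVec_zero]
  have hperm : ∀ γ ∈ G, ∀ j, ∃ i, (Vc h j).map (Matrix.mulVecLin (γ : Matrix n n k)) = Vc h i := by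
    intro γ hγ j
    have hj1 : (Pi.single j 1 : n → k) ∈ Vc h j := (single_mem_Vc hdiag).2 (hdiag j)
    obtain ⟨i, hi⟩ := hne γ (Pi.single j 1) (by simp)
    have h3 : Vc h i ≤ (Vc h j).map (Matrix.mulVecLin (γ : Matrix n n k)) :=
      Vc_le hdiag _ (hst γ hγ j) i _ ⟨_, hj1, rfl⟩ hi
    refine ⟨i, le_antisymm ?_ h3⟩
    have hi1 : (Pi.single i 1 : n → k) ∈ Vc h i := (single_mem_Vc hdiag).2 (hdiag i)
    obtain ⟨l, hl⟩ := hne γ⁻¹ (Pi.single i 1) (by simp)
    have h4 : Vc h l ≤ (Vc h i).map (Matrix.mulVecLin ((γ⁻¹ : GL n k) : Matrix n n k)) :=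
      Vc_le hdiag _ (hst γ⁻¹ (G.inv_mem hγ) i) l _ ⟨_, hi1, rfl⟩ hl
    have e1 : ((γ⁻¹ : GL n k) : Matrix n n k) * (γ : Matrix n n k) = 1 := by
      rw [← Units.val_mul, inv_mul_cancel, Units.val_one]
    have e2 : (γ : Matrix n n k) * ((γ⁻¹ : GL n k) : Matrix n n k) = 1 := by
      rw [← Units.val_mul, mul_inv_cancel, Units.val_one]
    have h5 : (Vc h i).map (Matrix.mulVecLin ((γ⁻¹ : GL n k) : Matrix n n k)) ≤ Vc h j := by
      rintro _ ⟨v, hv, rfl⟩
      obtain ⟨w, hw, hw2⟩ := h3 hv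
      rw [mulVecLin_apply, ← hw2, mulVecLin_apply, mulVec_mulVec, e1, one_mulVec]
      exact hw
    have h6 : Rel h l j := (single_mem_Vc hdiag).1 (h5 (h4 ((single_mem_Vc hdiag).2 (hdiag l))))
    rw [Vc_eq hdiag hbr hsymm h6] at h4
    rintro _ ⟨v, hv, rfl⟩
    obtain ⟨w, hw, hw2⟩ := h4 hv
    rw [mulVecLin_apply, ← hw2, mulVecLin_apply, mulVec_mulVec, e2, one_mulVec]
    exact hw
  -- all classes are equal
  have hall : ∀ i j, Rel h i j := by
    intro i j
    by_contra hij
    refine hprim (Set.range (Vc h)) ?_ ?_ ?_ ?_ ?_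
    · refine ⟨Vc h i, ⟨i, rfl⟩, Vc h j, ⟨j, rfl⟩, fun h3 => hij ?_⟩
      rw [← single_mem_Vc hdiag, ← h3, single_mem_Vc hdiag]
      exact hdiag i
    · rintro _ ⟨l, rfl⟩ h3
      have h4 : (Pi.single l 1 : n → k) ∈ Vc h l := (single_mem_Vc hdiag).2 (hdiag l)
      rw [h3, Submodule.mem_bot] at h4
      simp at h4
    · rintro _ ⟨l, rfl⟩
      rw [Submodule.disjoint_def]
      intro v hv hv2
      have h3 : ∀ u ∈ sSup (Set.range (Vc h) \ {Vc h l}), ∀ a, Rel h a l → u a = 0 := by
        let W : Submodule k (n → k) :=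
          { carrier := {u | ∀ a, Rel h a l → u a = 0}
            zero_mem' := fun _ _ => rfl
            add_mem' := fun {x y} hx hy a ha => by rw [Pi.add_apply, hx a ha, hy a ha, add_zero]
            smul_mem' := fun c x hx a ha => by rw [Pi.smul_apply, hx a ha, smul_zero] }
        have h4 : sSup (Set.range (Vc h) \ {Vc h l}) ≤ W := by
          refine sSup_le ?_
          rintro _ ⟨⟨b, rfl⟩, hb⟩ u hu a ha
          refine hu a fun hab => hb ?_
          exact Vc_eq hdiag hbr hsymm (rel_trans hdiag hbr (hsymm _ _ hab) ha)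
        exact fun u hu => h4 hu
      ext a
      by_cases ha : Rel h a l
      · exact h3 v hv2 a ha
      · exact hv a ha
    · rw [eq_top_iff]
      intro v _
      have h5 : v = ∑ i, v i • (Pi.single i 1 : n → k) := by
        ext i
        rw [Finset.sum_apply]
        simp [Pi.single_apply]
      rw [h5]
      refine Submodule.sum_mem _ fun a _ => Submodule.smul_mem _ _ ?_
      have h6 : Vc h a ≤ sSup (Set.range (Vc h)) := le_sSup ⟨a, rfl⟩
      exact h6 ((single_mem_Vc hdiag).2 (hdiag a))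
    · rintro γ hγ _ ⟨l, rfl⟩
      obtain ⟨i', hi'⟩ := hperm γ hγ l
      exact ⟨i', hi'.symm⟩
  rw [eq_top_iff]
  intro X _
  rw [matrix_eq_sum_single X]
  refine Submodule.sum_mem _ fun i _ => Submodule.sum_mem _ fun j _ => ?_
  have h3 : single i j (X i j) = X i j • single i j (1 : k) := by
    rw [smul_single, smul_eq_mul, mul_one]
  rw [h3]
  exact h.smul_mem _ (hall i j)

end

end Pool.Agent.Helper47.TG
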