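import Pool.Agent.Helper47.TG.Conj

/-!
Density lemma for symplectic and orthogonal similitudes (MP_78e9a5_nt, TensorGenerated), part 1:
Lie subalgebras of the symplectic or orthogonal Lie algebra which contain the diagonal torus and
are normalised by an irreducible and primitive group.
-/

open Matrix

namespace Pool.Agent.Helper47.TG

variable {k : Type*} [Field k] {n : Type*} [Fintype n] [DecidableEq n]

section

/-- If a Lie algebra has the coordinate blocks of an equivalence relation as the smallest stable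
subspaces, and is normalised by a primitive group, there is only one block. -/
theorem all_rel (h : Submodule k (Matrix n n k)) (R : n → n → Prop) (hrefl : ∀ i, R i i)
    (hsymm : ∀ i j, R i j → R j i) (htrans : ∀ i j l, R i j → R j l → R i l)
    (hst0 : ∀ X ∈ h, ∀ j (v : n → k), (∀ i, ¬ R i j → v i = 0) →
      ∀ i, ¬ R i j → (X *ᵥ v) i = 0)
    (hle : ∀ U : Submodule k (n → k), (∀ X ∈ h, ∀ u ∈ U, X *ᵥ u ∈ U) → ∀ j, ∀ u ∈ U, u j ≠ 0 →
      ∀ v : n → k, (∀ i, ¬ R i j → v i = 0) → v ∈ U)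
    (G : Subgroup (GL n k))
    (hG : ∀ γ ∈ G, ∀ X ∈ h, (γ : Matrix n n k) * X * ((γ⁻¹ : GL n k) : Matrix n n k) ∈ h)
    (hprim : Primit G) : ∀ i j, R i j := by
  classical
  let V : n → Submodule k (n → k) := fun j =>
    { carrier := {v | ∀ i, ¬ R i j → v i = 0}
      zero_mem' := fun _ _ => rfl
      add_mem' := fun {a b} ha hb i hi => by rw [Pi.add_apply, ha i hi, hb i hi, add_zero]
      smul_mem' := fun c a ha i hi => by rw [Pi.smul_apply, ha i hi, smul_zero] }
  have hV : ∀ j v, v ∈ V j ↔ ∀ i, ¬ R i j → v i = 0 := fun j v => Iff.rfl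
  have hsing : ∀ i j, (Pi.single i 1 : n → k) ∈ V j ↔ R i j := by
    intro i j
    constructor
    · intro h3
      by_contra h4
      have := h3 i h4
      simp at this
    · intro h3 l hl
      by_cases hi : l = i
      · subst hi
        exact absurd h3 hl
      · simp [hi]
  have hVeq : ∀ i j, R i j → V i = V j := by
    intro i j hij
    refine le_antisymm (fun v hv l hl => hv l fun h3 => hl (htrans _ _ _ h3 hij))
      fun v hv l hl => hv l fun h3 => hl (htrans _ _ _ h3 (hsymm _ _ hij))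
  have hst : ∀ γ ∈ G, ∀ j, ∀ X ∈ h, ∀ u ∈ (V j).map (Matrix.mulVecLin (γ : Matrix n n k)),
      X *ᵥ u ∈ (V j).map (Matrix.mulVecLin (γ : Matrix n n k)) := by
    intro γ hγ j X hX u hu
    obtain ⟨v, hv, rfl⟩ := hu
    have h3 := hG γ⁻¹ (G.inv_mem hγ) X hX
    rw [inv_inv] at h3
    refine ⟨_, hst0 _ h3 j v hv, ?_⟩
    rw [mulVecLin_apply, mulVecLin_apply, mulVec_mulVec, mulVec_mulVec, ← mul_assoc, ← mul_assoc,
      gl_mul_inv, one_mul]
  have hne : ∀ γ : GL n k, ∀ v : n → k, v ≠ 0 → ∃ i, ((γ : Matrix n n k) *ᵥ v) i ≠ 0 := by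
    intro γ v hv
    by_contra hcon
    push Not at hcon
    have h3 : (γ : Matrix n n k) *ᵥ v = 0 := funext hcon
    refine hv ?_
    rw [← one_mulVec v, ← gl_inv_mul γ, ← mulVec_mulVec, h3, mulVec_zero]
  have hperm : ∀ γ ∈ G, ∀ j, ∃ i, (V j).map (Matrix.mulVecLin (γ : Matrix n n k)) = V i := by
    intro γ hγ j
    have hj1 : (Pi.single j 1 : n → k) ∈ V j := (hsing _ _).2 (hrefl j)
    obtain ⟨i, hi⟩ := hne γ (Pi.single j 1) (by simp)
    have h3 : V i ≤ (V j).map (Matrix.mulVecLin (γ : Matrix n n k)) :=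
      fun w hw => hle _ (hst γ hγ j) i _ ⟨_, hj1, rfl⟩ hi w hw
    refine ⟨i, le_antisymm ?_ h3⟩
    have hi1 : (Pi.single i 1 : n → k) ∈ V i := (hsing _ _).2 (hrefl i)
    obtain ⟨l, hl⟩ := hne γ⁻¹ (Pi.single i 1) (by simp)
    have h4 : V l ≤ (V i).map (Matrix.mulVecLin ((γ⁻¹ : GL n k) : Matrix n n k)) :=
      fun w hw => hle _ (hst γ⁻¹ (G.inv_mem hγ) i) l _ ⟨_, hi1, rfl⟩ hl w hw
    have h5 : (V i).map (Matrix.mulVecLin ((γ⁻¹ : GL n k) : Matrix n n k)) ≤ V j := by
      rintro _ ⟨v, hv, rfl⟩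
      obtain ⟨w, hw, hw2⟩ := h3 hv
      rw [mulVecLin_apply, ← hw2, mulVecLin_apply, mulVec_mulVec, gl_inv_mul, one_mulVec]
      exact hw
    have h6 : R l j := (hsing _ _).1 (h5 (h4 ((hsing _ _).2 (hrefl l))))
    rw [hVeq _ _ h6] at h4
    rintro _ ⟨v, hv, rfl⟩
    obtain ⟨w, hw, hw2⟩ := h4 hv
    rw [mulVecLin_apply, ← hw2, mulVecLin_apply, mulVec_mulVec, gl_mul_inv, one_mulVec]
    exact hw
  intro i j
  by_contra hij
  refine hprim (Set.range V) ?_ ?_ ?_ ?_ ?_
  · refine ⟨V i, ⟨i, rfl⟩, V j, ⟨j, rfl⟩, fun h3 => hij ?_⟩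
    rw [← hsing, ← h3, hsing]
    exact hrefl i
  · rintro _ ⟨l, rfl⟩ h3
    have h4 : (Pi.single l 1 : n → k) ∈ V l := (hsing _ _).2 (hrefl l)
    rw [h3, Submodule.mem_bot] at h4
    simp at h4
  · rintro _ ⟨l, rfl⟩
    rw [Submodule.disjoint_def]
    intro v hv hv2
    have h3 : ∀ u ∈ sSup (Set.range V \ {V l}), ∀ a, R a l → u a = 0 := by
      let W : Submodule k (n → k) :=
        { carrier := {u | ∀ a, R a l → u a = 0}
          zero_mem' := fun _ _ => rfl
          add_mem' := fun {x y} hx hy a ha => by rw [Pi.add_apply, hx a ha, hy a ha, add_zero]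
          smul_mem' := fun c x hx a ha => by rw [Pi.smul_apply, hx a ha, smul_zero] }
      have h4 : sSup (Set.range V \ {V l}) ≤ W := by
        refine sSup_le ?_
        rintro _ ⟨⟨b, rfl⟩, hb⟩ u hu a ha
        refine hu a fun hab => hb ?_
        exact hVeq _ _ (htrans _ _ _ (hsymm _ _ hab) ha)
      exact fun u hu => h4 hu
    ext a
    by_cases ha : R a l
    · exact h3 v hv2 a ha
    · exact hv a ha
  · rw [eq_top_iff]
    intro v _
    have h5 : v = ∑ i, v i • (Pi.single i 1 : n → k) := by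
      ext i
      rw [Finset.sum_apply]
      simp [Pi.single_apply]
    rw [h5]
    refine Submodule.sum_mem _ fun a _ => Submodule.smul_mem _ _ ?_
    have h6 : V a ≤ sSup (Set.range V) := le_sSup ⟨a, rfl⟩
    exact h6 ((hsing _ _).2 (hrefl a))
  · rintro γ hγ _ ⟨l, rfl⟩
    obtain ⟨i', hi'⟩ := hperm γ hγ l
    exact ⟨i', hi'.symm⟩

end

/-- the form with `Φ (e i) (e (st i)) = s i` and all other values `0` -/
structure Frm (k n : Type*) [Field k] where
  /-- the opposite index -/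
  st : n → n
  st_st : ∀ j, st (st j) = j
  /-- the values -/
  s : n → k
  s_ne : ∀ j, s j ≠ 0
  /-- the sign -/
  e : k
  he : e = 1 ∨ e = -1
  s_st : ∀ j, s (st j) = e * s j
  fix : ∀ i j, st i = i → st j = j → i = j

namespace Frm

variable (Φ : Frm k n)

/-- the Lie algebra of the isometries of the form -/
def g : Submodule k (Matrix n n k) where
  carrier := {X | ∀ j a, Φ.s a * X (Φ.st a) (Φ.st j) = -(Φ.s j * X j a)}
  zero_mem' := fun j a => by simp
  add_mem' := fun {X Y} hX hY j a => by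
    rw [Matrix.add_apply, Matrix.add_apply, mul_add, mul_add, hX j a, hY j a]
    ring
  smul_mem' := fun c X hX j a => by
    rw [Matrix.smul_apply, Matrix.smul_apply, smul_eq_mul, smul_eq_mul]
    have := hX j a
    linear_combination c * this

/-- the root elements -/
def F (j a : n) : Matrix n n k := single j a (Φ.s a) - single (Φ.st a) (Φ.st j) (Φ.s j)

omit [Fintype n] in
theorem F_apply (j a p q : n) : Φ.F j a p q =
    (if j = p ∧ a = q then Φ.s a else 0) -
      (if Φ.st a = p ∧ Φ.st j = q then Φ.s j else 0) := by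
  rw [F, Matrix.sub_apply, single_apply, single_apply]

omit [Fintype n] [DecidableEq n] in
theorem st_inj {i j : n} (h : Φ.st i = Φ.st j) : i = j := by
  rw [← Φ.st_st i, h, Φ.st_st]

omit [Fintype n] [DecidableEq n] in
theorem e_sq : Φ.e * Φ.e = 1 := by
  rcases Φ.he with h | h <;> rw [h] <;> ring

omit [Fintype n] in
theorem F_mem (j a : n) : Φ.F j a ∈ Φ.g := by
  intro p q
  rw [F_apply, F_apply]
  have e1 : (j = Φ.st q ∧ a = Φ.st p) ↔ (Φ.st a = p ∧ Φ.st j = q) := by
    constructor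
    · rintro ⟨rfl, rfl⟩
      exact ⟨Φ.st_st _, Φ.st_st _⟩
    · rintro ⟨rfl, rfl⟩
      exact ⟨(Φ.st_st _).symm, (Φ.st_st _).symm⟩
  have e2 : (Φ.st a = Φ.st q ∧ Φ.st j = Φ.st p) ↔ (j = p ∧ a = q) := by
    constructor
    · rintro ⟨h1, h2⟩
      exact ⟨Φ.st_inj h2, Φ.st_inj h1⟩
    · rintro ⟨rfl, rfl⟩
      exact ⟨rfl, rfl⟩
  rw [if_congr e1 rfl rfl, if_congr e2 rfl rfl]
  have he2 := Φ.e_sq
  split_ifs with h2 h1 h1
  · obtain ⟨rfl, rfl⟩ := h2
    obtain ⟨h3, h4⟩ := h1
    have h5 : Φ.s a = Φ.e * Φ.s j := by rw [← Φ.s_st j, ← h4]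
    rw [← h4, ← h3, h5]
    linear_combination (Φ.s j ^ 2) * he2
  · obtain ⟨rfl, rfl⟩ := h2
    rw [Φ.s_st, Φ.s_st]
    ring
  · obtain ⟨rfl, rfl⟩ := h1
    ring
  · ring

omit [Fintype n] in
theorem F_star (j a : n) : Φ.F (Φ.st a) (Φ.st j) = -(Φ.e • Φ.F j a) := by
  rw [F, F, Φ.st_st, Φ.st_st, Φ.s_st, Φ.s_st]
  ext p q
  simp only [Matrix.sub_apply, Matrix.neg_apply, Matrix.smul_apply, single_apply, smul_eq_mul]
  split_ifs <;> ring

theorem trace_F {X : Matrix n n k} (hX : X ∈ Φ.g) (i j : n) :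
    trace (X * Φ.F j i) = 2 * (Φ.s i * X i j) := by
  rw [F, mul_sub, trace_sub, trace_mul_single, trace_mul_single]
  have h1 := hX i j
  simp only [MulOpposite.smul_eq_mul_unop, MulOpposite.unop_op]
  linear_combination -h1

end Frm

end Pool.Agent.Helper47.TG
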