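import Pool.Agent.Helper47.TG.Cls

/-!
Density lemma for symplectic and orthogonal similitudes (MP_78e9a5_nt, TensorGenerated), part 2:
the block lemma.
-/

open Matrix

namespace Pool.Agent.Helper47.TG

variable {k : Type*} [Field k] {n : Type*} [Fintype n] [DecidableEq n]

theorem sms (i j i' j' : n) (x y : k) : single i j x * single i' j' y =
    if j = i' then single i j' (x * y) else 0 := by
  by_cases h : j = i'
  · subst h
    rw [if_pos rfl, single_mul_single_same]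
  · rw [if_neg h, single_mul_single_of_ne _ _ _ _ h]

theorem sms_apply (i j i' j' : n) (x y : k) (p q : n) : (single i j x * single i' j' y) p q =
    if j = i' ∧ i = p ∧ j' = q then x * y else 0 := by
  rw [sms]
  by_cases h : j = i'
  · rw [if_pos h, single_apply]
    simp only [h, true_and]
  · rw [if_neg h, if_neg (fun h1 => h h1.1), Matrix.zero_apply]

namespace Frm

variable (Φ : Frm k n)

/-- the component of an element of the Lie algebra in the weight space of the index `(j, a)` -/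
def comp (X : Matrix n n k) (j a : n) : Matrix n n k := Matrix.of fun p q =>
  if (p = j ∧ q = a) ∨ (p = Φ.st a ∧ q = Φ.st j) then X p q else 0

omit [Fintype n] in
theorem comp_apply (X : Matrix n n k) (j a p q : n) : Φ.comp X j a p q =
    if (p = j ∧ q = a) ∨ (p = Φ.st a ∧ q = Φ.st j) then X p q else 0 := rfl

omit [Fintype n] in
theorem F_entry (j a : n) : Φ.F j a j a = if a = Φ.st j then (Φ.e - 1) * Φ.s j else Φ.s a := by
  rw [F_apply, if_pos ⟨rfl, rfl⟩]
  by_cases h : a = Φ.st j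
  · rw [if_pos h, if_pos ⟨by rw [h, Φ.st_st], h.symm⟩, h, Φ.s_st]
    ring
  · rw [if_neg h, if_neg (fun h1 => h h1.2.symm), sub_zero]

omit [Fintype n] in
theorem comp_eq {X : Matrix n n k} (hX : X ∈ Φ.g) {j a : n} (h : a ≠ Φ.st j) :
    Φ.comp X j a = (X j a * (Φ.s a)⁻¹) • Φ.F j a := by
  ext p q
  rw [comp_apply, Matrix.smul_apply, F_apply, smul_eq_mul]
  have hsa := Φ.s_ne a
  by_cases h1 : p = j ∧ q = a
  · obtain ⟨rfl, rfl⟩ := h1
    rw [if_pos (Or.inl ⟨rfl, rfl⟩), if_pos ⟨rfl, rfl⟩, if_neg (fun h3 => h h3.2.symm), sub_zero,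
      mul_assoc, inv_mul_cancel₀ hsa, mul_one]
  · by_cases h2 : p = Φ.st a ∧ q = Φ.st j
    · obtain ⟨rfl, rfl⟩ := h2
      rw [if_pos (Or.inr ⟨rfl, rfl⟩), if_neg (fun h3 => h1 ⟨h3.1.symm, h3.2.symm⟩),
        if_pos ⟨rfl, rfl⟩, zero_sub]
      have h3 := hX j a
      field_simp
      linear_combination h3
    · rw [if_neg (by rintro (h3 | h3) <;> [exact h1 h3; exact h2 h3]),
        if_neg (fun h3 => h1 ⟨h3.1.symm, h3.2.symm⟩),
        if_neg (fun h3 => h2 ⟨h3.1.symm, h3.2.symm⟩), sub_zero, mul_zero]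

/-- the Lie algebra `h` in the algebra of the form, with its torus -/
structure Cl (h : Submodule k (Matrix n n k)) : Prop where
  le : h ≤ Φ.g
  comp : ∀ X ∈ h, ∀ j a, j ≠ a → Φ.comp X j a ∈ h
  diag : ∀ j, Φ.F j j ∈ h
  br : ∀ X ∈ h, ∀ Y ∈ h, X * Y - Y * X ∈ h

/-- the roots of `h` -/
def Rl (h : Submodule k (Matrix n n k)) (j a : n) : Prop := Φ.F j a ∈ h ∧ Φ.F j a j a ≠ 0

variable {Φ} {h : Submodule k (Matrix n n k)}

omit [Fintype n] in
theorem Rl.e_ne {j : n} (h1 : Φ.Rl h j (Φ.st j)) : Φ.e = -1 := by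
  have h3 := h1.2
  rw [F_entry, if_pos rfl] at h3
  rcases Φ.he with h4 | h4
  · rw [h4, sub_self, zero_mul] at h3
    exact absurd rfl h3
  · exact h4

theorem Cl.rel_of_ne (H : Φ.Cl h) (h2 : (2 : k) ≠ 0) {X : Matrix n n k} (hX : X ∈ h) {j a : n}
    (hja : X j a ≠ 0) : Φ.Rl h j a := by
  have hXg := H.le hX
  by_cases he : j = a
  · subst he
    refine ⟨H.diag j, ?_⟩
    rw [F_entry]
    by_cases h3 : j = Φ.st j
    · exfalso
      have h4 := hXg j j
      rw [← h3] at h4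
      have h5 : 2 * (Φ.s j * X j j) = 0 := by linear_combination h4
      rcases mul_eq_zero.1 h5 with h6 | h6
      · exact h2 h6
      · rcases mul_eq_zero.1 h6 with h7 | h7
        · exact Φ.s_ne j h7
        · exact hja h7
    · rw [if_neg h3]
      exact Φ.s_ne j
  · have h3 := H.comp X hX j a he
    by_cases h4 : a = Φ.st j
    · have h5 := hXg j a
      rw [h4, Φ.st_st, Φ.s_st] at h5
      rw [h4] at hja
      have h6 : Φ.e = -1 := by
        rcases Φ.he with h7 | h7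
        · exfalso
          rw [h7] at h5
          have h5 : 2 * (Φ.s j * X j (Φ.st j)) = 0 := by linear_combination h5
          rcases mul_eq_zero.1 h5 with h6 | h6
          · exact h2 h6
          · rcases mul_eq_zero.1 h6 with h7 | h7
            · exact Φ.s_ne j h7
            · exact hja h7
        · exact h7
      have h7 : Φ.F j a = (-2 * Φ.s j * (X j (Φ.st j))⁻¹) • Φ.comp X j a := by
        ext p q
        rw [Matrix.smul_apply, comp_apply, F_apply, smul_eq_mul, h4, Φ.st_st, Φ.s_st, h6]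
        by_cases h8 : j = p ∧ Φ.st j = q
        · obtain ⟨rfl, rfl⟩ := h8
          rw [if_pos ⟨rfl, rfl⟩, if_pos ⟨rfl, rfl⟩, if_pos (Or.inl ⟨rfl, rfl⟩)]
          field_simp
          ring
        · rw [if_neg h8, if_neg h8, if_neg (by
            rintro (h9 | h9) <;> exact h8 ⟨h9.1.symm, h9.2.symm⟩), sub_zero, mul_zero]
      refine ⟨h7 ▸ h.smul_mem _ h3, ?_⟩
      rw [F_entry, if_pos h4, h6]
      have : (-1 - 1 : k) = -2 := by ring
      rw [this]
      exact mul_ne_zero (neg_ne_zero.2 h2) (Φ.s_ne j)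
    · rw [comp_eq Φ hXg h4] at h3
      refine ⟨(h.smul_mem_iff (mul_ne_zero hja (inv_ne_zero (Φ.s_ne a)))).1 h3, ?_⟩
      rw [F_entry, if_neg h4]
      exact Φ.s_ne a

omit [Fintype n] in
theorem Rl.star {j a : n} (h1 : Φ.Rl h j a) : Φ.Rl h (Φ.st a) (Φ.st j) := by
  refine ⟨?_, ?_⟩
  · rw [F_star]
    exact h.neg_mem (h.smul_mem _ h1.1)
  · have h3 := h1.2
    rw [F_entry] at h3 ⊢
    by_cases h4 : a = Φ.st j
    · rw [if_pos h4] at h3
      rw [if_pos (by rw [h4, Φ.st_st]), h4, Φ.st_st]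
      exact h3
    · rw [if_neg (fun h5 => h4 (by rw [h5, Φ.st_st]))]
      exact Φ.s_ne _

theorem entry {j a c : n} (hja : j ≠ a) (hac : a ≠ c) (hjc : j ≠ c) :
    (Φ.F j a * Φ.F a c - Φ.F a c * Φ.F j a) j c = Φ.s a * Φ.s c -
      (if c = Φ.st a then Φ.s a * Φ.s a else 0) - (if a = Φ.st j then Φ.s j * Φ.s c else 0) -
      (if c = Φ.st j then Φ.s a * Φ.s j else 0) := by
  have sw : ∀ x y : n, (x = Φ.st y) ↔ (y = Φ.st x) := fun x y =>
    ⟨fun h => by rw [h, Φ.st_st], fun h => by rw [h, Φ.st_st]⟩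
  have a1 : (a = Φ.st c ∧ Φ.st a = c) ↔ (c = Φ.st a) :=
    ⟨fun h => h.2.symm, fun h => ⟨(sw _ _).2 h, h.symm⟩⟩
  have b1 : (Φ.st j = a ∧ Φ.st a = j) ↔ (a = Φ.st j) :=
    ⟨fun h => h.1.symm, fun h => ⟨h.symm, ((sw _ _).1 h).symm⟩⟩
  have c1 : (Φ.st c = j ∧ Φ.st j = c) ↔ (c = Φ.st j) :=
    ⟨fun h => h.2.symm, fun h => ⟨((sw _ _).1 h).symm, h.symm⟩⟩
  rw [F, F, sub_mul, mul_sub, mul_sub, sub_mul, mul_sub, mul_sub]
  simp only [Matrix.sub_apply, sms_apply, and_true, true_and, if_true]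
  rw [if_congr a1 rfl rfl, if_congr b1 rfl rfl,
    if_neg (fun h : Φ.st j = Φ.st c ∧ Φ.st a = j ∧ Φ.st a = c => hjc (Φ.st_inj h.1)),
    if_neg (fun h : c = j ∧ a = j ∧ a = c => hjc h.1.symm),
    if_neg (fun h : c = Φ.st a ∧ a = j ∧ Φ.st j = c => hja h.2.1.symm),
    if_neg (fun h : Φ.st a = j ∧ Φ.st c = j ∧ a = c => hac h.2.2), if_congr c1 rfl rfl]
  ring

theorem Cl.trans (H : Φ.Cl h) (h2 : (2 : k) ≠ 0) {j a c : n} (h1 : Φ.Rl h j a)
    (h3 : Φ.Rl h a c) : j = c ∨ Φ.Rl h j c ∨ (c = Φ.st j ∧ Φ.e = 1) := by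
  by_cases hjc : j = c
  · exact Or.inl hjc
  by_cases hja : j = a
  · subst hja
    exact Or.inr (Or.inl h3)
  by_cases hac : a = c
  · subst hac
    exact Or.inr (Or.inl h1)
  by_cases hc : c = Φ.st j ∧ Φ.e = 1
  · exact Or.inr (Or.inr hc)
  refine Or.inr (Or.inl (H.rel_of_ne h2 (H.br _ h1.1 _ h3.1) ?_))
  rw [entry hja hac hjc]
  have nj := Φ.s_ne j
  have na := Φ.s_ne a
  have nc := Φ.s_ne c
  have h2' : (-2 : k) ≠ 0 := neg_ne_zero.2 h2
  by_cases A : c = Φ.st a
  · have B : ¬ (a = Φ.st j) := fun h => hjc (by rw [A, h, Φ.st_st])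
    have C : ¬ (c = Φ.st j) := fun h => hja (Φ.st_inj (h.symm.trans A))
    have he : Φ.e = -1 := by
      rw [A] at h3
      exact h3.e_ne
    rw [if_pos A, if_neg B, if_neg C, A, Φ.s_st, he]
    have e1 : Φ.s a * (-1 * Φ.s a) - Φ.s a * Φ.s a - 0 - 0 = -2 * (Φ.s a * Φ.s a) := by ring
    rw [e1]
    exact mul_ne_zero h2' (mul_ne_zero na na)
  · by_cases B : a = Φ.st j
    · have C : ¬ (c = Φ.st j) := fun h => hac (B.trans h.symm)
      have he : Φ.e = -1 := by
        rw [B] at h1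
        exact h1.e_ne
      rw [if_neg A, if_pos B, if_neg C, B, Φ.s_st, he]
      have e1 : -1 * Φ.s j * Φ.s c - 0 - Φ.s j * Φ.s c - 0 = -2 * (Φ.s j * Φ.s c) := by ring
      rw [e1]
      exact mul_ne_zero h2' (mul_ne_zero nj nc)
    · by_cases C : c = Φ.st j
      · have he : Φ.e = -1 := by
          rcases Φ.he with h5 | h5
          · exact absurd ⟨C, h5⟩ hc
          · exact h5
        rw [if_neg A, if_neg B, if_pos C, C, Φ.s_st, he]
        have e1 : Φ.s a * (-1 * Φ.s j) - 0 - 0 - Φ.s a * Φ.s j = -2 * (Φ.s a * Φ.s j) := by ring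
        rw [e1]
        exact mul_ne_zero h2' (mul_ne_zero na nj)
      · rw [if_neg A, if_neg B, if_neg C, sub_zero, sub_zero, sub_zero]
        exact mul_ne_zero na nc

/-- the transitive closure of the roots -/
def R1 (h : Submodule k (Matrix n n k)) (j c : n) : Prop :=
  j = c ∨ Φ.Rl h j c ∨ (c = Φ.st j ∧ Φ.e = 1 ∧ ∃ a, Φ.Rl h j a ∧ Φ.Rl h a (Φ.st j))

theorem Cl.R1_of (H : Φ.Cl h) (h2 : (2 : k) ≠ 0) {j a c : n} (h1 : Φ.Rl h j a)
    (h3 : Φ.Rl h a c) : R1 (Φ := Φ) h j c := by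
  rcases H.trans h2 h1 h3 with h4 | h4 | ⟨rfl, h4⟩
  · exact Or.inl h4
  · exact Or.inr (Or.inl h4)
  · exact Or.inr (Or.inr ⟨rfl, h4, a, h1, h3⟩)

omit [Fintype n] in
theorem Rl.star' {j a : n} (h1 : Φ.Rl h j (Φ.st a)) : Φ.Rl h a (Φ.st j) := by
  have h3 := h1.star
  rwa [Φ.st_st] at h3

omit [Fintype n] in
theorem Rl.star'' {j a : n} (h1 : Φ.Rl h (Φ.st j) (Φ.st a)) : Φ.Rl h a j := by
  have h3 := h1.star
  rwa [Φ.st_st, Φ.st_st] at h3

theorem Cl.R1_trans (H : Φ.Cl h) (h2 : (2 : k) ≠ 0) {j a c : n} (h1 : R1 (Φ := Φ) h j a)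
    (h3 : R1 (Φ := Φ) h a c) : R1 (Φ := Φ) h j c := by
  rcases h1 with rfl | h1 | ⟨rfl, he, b, h4, h5⟩
  · exact h3
  · rcases h3 with rfl | h3 | ⟨rfl, he, b, h4, h5⟩
    · exact Or.inr (Or.inl h1)
    · exact H.R1_of h2 h1 h3
    · rcases H.trans h2 h1 h4 with rfl | h6 | ⟨rfl, _⟩
      · exact Or.inr (Or.inl h5)
      · exact H.R1_of h2 h6 h5
      · exact Or.inr (Or.inl h4.star')
  · rcases h3 with rfl | h3 | ⟨rfl, _, b', h6, h7⟩
    · exact Or.inr (Or.inr ⟨rfl, he, b, h4, h5⟩)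
    · rcases H.trans h2 h5 h3 with rfl | h6 | ⟨rfl, _⟩
      · exact Or.inr (Or.inl h4)
      · exact H.R1_of h2 h4 h6
      · exact Or.inr (Or.inl h5.star')
    · left
      rw [Φ.st_st]

/-- the radical of the trace form vanishes, so the relation is symmetric -/
theorem Cl.symm (H : Φ.Cl h) (h2 : (2 : k) ≠ 0) {G : Subgroup (GL n k)}
    (hG : ∀ γ ∈ G, ∀ X ∈ h, (γ : Matrix n n k) * X * ((γ⁻¹ : GL n k) : Matrix n n k) ∈ h)
    (hirr : Irred G) {a b : n} (hab : Φ.Rl h a b) : Φ.Rl h b a := by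
  classical
  by_contra hba
  -- the radical of the trace form
  let r : Set (Matrix n n k) := {X | X ∈ h ∧ ∀ Y ∈ h, trace (X * Y) = 0}
  have hr1 : ∀ X ∈ r, ∀ i j, X i j ≠ 0 → Φ.Rl h i j ∧ ¬ Φ.Rl h j i := by
    intro X hX i j hij
    refine ⟨H.rel_of_ne h2 hX.1 hij, fun hji => hij ?_⟩
    have h3 := hX.2 _ hji.1
    rw [trace_F Φ (H.le hX.1)] at h3
    rcases mul_eq_zero.1 h3 with h4 | h4
    · exact absurd h4 h2
    · rcases mul_eq_zero.1 h4 with h5 | h5
      · exact absurd h5 (Φ.s_ne i)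
      · exact h5
  have hrG : ∀ γ ∈ G, ∀ X ∈ r, (γ : Matrix n n k) * X * ((γ⁻¹ : GL n k) : Matrix n n k) ∈ r := by
    intro γ hγ X hX
    refine ⟨hG γ hγ X hX.1, fun Y hY => ?_⟩
    have h3 := hG γ⁻¹ (G.inv_mem hγ) Y hY
    have h4 := hX.2 _ h3
    rw [inv_inv] at h4
    rw [← mul_assoc, ← mul_assoc] at h4
    have e1 : trace ((γ : Matrix n n k) * X * ((γ⁻¹ : GL n k) : Matrix n n k) * Y) =
        trace (X * ((γ⁻¹ : GL n k) : Matrix n n k) * Y * (γ : Matrix n n k)) := by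
      rw [mul_assoc, mul_assoc, trace_mul_comm, ← mul_assoc]
    rw [e1, h4]
  -- the image of the radical
  let U : Submodule k (n → k) := Submodule.span k {v | ∃ X ∈ r, ∃ u : n → k, v = X *ᵥ u}
  have hU : ∀ γ ∈ G, ∀ u ∈ U, (γ : Matrix n n k) *ᵥ u ∈ U := by
    intro γ hγ u hu
    induction hu using Submodule.span_induction with
    | mem v hv =>
      obtain ⟨X, hX, u, rfl⟩ := hv
      refine Submodule.subset_span ⟨_, hrG γ hγ X hX, (γ : Matrix n n k) *ᵥ u, ?_⟩
      rw [mulVec_mulVec, mulVec_mulVec, mul_assoc _ _ (γ : Matrix n n k), gl_inv_mul, mul_one]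
    | zero => rw [mulVec_zero]; exact U.zero_mem
    | add x y _ _ hx hy => rw [mulVec_add]; exact U.add_mem hx hy
    | smul c x _ hx => rw [mulVec_smul]; exact U.smul_mem c hx
  -- a maximal element
  have hmax : ∃ j, ∀ j', R1 (Φ := Φ) h j j' → R1 (Φ := Φ) h j' j := by
    let P : Preorder n :=
      { le := R1 (Φ := Φ) h
        le_refl := fun _ => Or.inl rfl
        le_trans := fun _ _ _ h1 h3 => H.R1_trans h2 h1 h3 }
    obtain ⟨j, _, hj⟩ := Finset.exists_maximal
      (Finset.univ_nonempty_iff.2 ⟨a⟩ : (Finset.univ : Finset n).Nonempty)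
    exact ⟨j, fun j' hj' => hj (Finset.mem_univ _) hj'⟩
  obtain ⟨j, hj⟩ := hmax
  have hUj : ∀ u ∈ U, u j = 0 := by
    intro u hu
    induction hu using Submodule.span_induction with
    | mem v hv =>
      obtain ⟨X, hX, u, rfl⟩ := hv
      rw [mulVec, dotProduct]
      refine Finset.sum_eq_zero fun i _ => ?_
      by_cases hji : X j i = 0
      · rw [hji, zero_mul]
      · obtain ⟨h3, h4⟩ := hr1 X hX j i hji
        rcases hj i (Or.inr (Or.inl h3)) with rfl | h5 | ⟨rfl, h5, _⟩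
        · exact absurd h3 h4
        · exact absurd h5 h4
        · have h6 : Φ.Rl h (Φ.st i) (Φ.st (Φ.st i)) := by rw [Φ.st_st]; exact h3
          have h7 := h6.e_ne
          rw [h5] at h7
          exfalso
          refine h2 ?_
          linear_combination h7
    | zero => rfl
    | add x y _ _ hx hy => rw [Pi.add_apply, hx, hy, add_zero]
    | smul c x _ hx => rw [Pi.smul_apply, hx, smul_zero]
  have hr0 : Φ.F a b ∈ r := by
    refine ⟨hab.1, fun Y hY => ?_⟩
    rw [trace_mul_comm, trace_F Φ (H.le hY)]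
    by_contra hne
    refine hba (H.rel_of_ne h2 hY ?_)
    intro h0
    rw [h0, mul_zero, mul_zero] at hne
    exact hne rfl
  rcases hirr U hU with h3 | h3
  · have h4 : Φ.F a b *ᵥ (Pi.single b 1) ∈ U := Submodule.subset_span ⟨_, hr0, _, rfl⟩
    rw [h3, Submodule.mem_bot] at h4
    have h5 := congrFun h4 a
    rw [mulVec_single_one] at h5
    exact hab.2 h5
  · have h4 : (Pi.single j 1 : n → k) ∈ U := by rw [h3]; exact Submodule.mem_top
    have h5 := hUj _ h4
    simp at h5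

/-- coordinate vectors in a stable subspace -/
theorem Cl.coord (H : Φ.Cl h) (h2 : (2 : k) ≠ 0) (U : Submodule k (n → k))
    (hU : ∀ X ∈ h, ∀ u ∈ U, X *ᵥ u ∈ U) (j : n) (u : n → k) (hu : u ∈ U) (huj : u j ≠ 0) :
    (Pi.single j 1 : n → k) ∈ U := by
  have key : ∀ i, i ≠ Φ.st i → u i ≠ 0 → (Pi.single i 1 : n → k) ∈ U := by
    intro i hi hui
    have hF : ∀ v : n → k, Φ.F i i *ᵥ v =
        (Φ.s i * v i) • Pi.single i 1 - (Φ.s i * v (Φ.st i)) • Pi.single (Φ.st i) 1 := by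
      intro v
      ext p
      rw [F, sub_mulVec, Pi.sub_apply, single_mulVec, single_mulVec, Pi.sub_apply, Pi.smul_apply,
        Pi.smul_apply]
      by_cases h3 : p = i
      · subst h3
        simp [hi]
      · by_cases h4 : p = Φ.st i
        · subst h4
          simp [hi.symm]
        · simp [h3, h4]
    have h3 := hU _ (H.diag i) u hu
    have h4 := hU _ (H.diag i) _ h3
    rw [hF] at h3
    rw [hF, hF u] at h4
    have hne : ∀ x : k, (x • Pi.single (Φ.st i) 1 : n → k) i = 0 := by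
      intro x
      rw [Pi.smul_apply, Pi.single_eq_of_ne hi, smul_zero]
    have hne' : ∀ x : k, (x • Pi.single i 1 : n → k) (Φ.st i) = 0 := by
      intro x
      rw [Pi.smul_apply, Pi.single_eq_of_ne hi.symm, smul_zero]
    rw [Pi.sub_apply, Pi.sub_apply, hne, hne', Pi.smul_apply, Pi.smul_apply, Pi.single_eq_same,
      Pi.single_eq_same, smul_eq_mul, smul_eq_mul, mul_one, mul_one] at h4
    have h5 := U.add_mem (U.smul_mem (Φ.s i) h3) h4
    have h6 : Φ.s i • ((Φ.s i * u i) • (Pi.single i 1 : n → k) -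
        (Φ.s i * u (Φ.st i)) • Pi.single (Φ.st i) 1) +
        ((Φ.s i * (Φ.s i * u i - 0)) • Pi.single i 1 -
        (Φ.s i * (0 - Φ.s i * u (Φ.st i))) • Pi.single (Φ.st i) 1) =
        (2 * (Φ.s i * Φ.s i * u i)) • Pi.single i 1 := by
      ext p
      simp only [Pi.add_apply, Pi.sub_apply, Pi.smul_apply, smul_eq_mul]
      ring
    rw [h6] at h5
    exact (U.smul_mem_iff (mul_ne_zero h2 (mul_ne_zero (mul_ne_zero (Φ.s_ne i) (Φ.s_ne i))
      hui))).1 h5
  by_cases hj : j = Φ.st j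
  · have h3 : u = ∑ i, u i • (Pi.single i 1 : n → k) := by
      ext i
      rw [Finset.sum_apply]
      simp [Pi.single_apply]
    rw [← Finset.add_sum_erase _ _ (Finset.mem_univ j)] at h3
    have h4 : ∑ i ∈ Finset.univ.erase j, u i • (Pi.single i 1 : n → k) ∈ U := by
      refine U.sum_mem fun i hi => ?_
      by_cases hui : u i = 0
      · rw [hui, zero_smul]
        exact U.zero_mem
      · refine U.smul_mem _ (key i (fun h5 => ?_) hui)
        exact Finset.ne_of_mem_erase hi (Φ.fix i j h5.symm hj.symm)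
    have h5 : u j • (Pi.single j 1 : n → k) ∈ U := by
      have h6 := U.sub_mem hu h4
      have h7 : u - ∑ i ∈ Finset.univ.erase j, u i • (Pi.single i 1 : n → k) =
          u j • (Pi.single j 1 : n → k) := by
        rw [sub_eq_iff_eq_add]
        exact h3
      rwa [h7] at h6
    exact (U.smul_mem_iff huj).1 h5
  · exact key j hj huj

/-- **The block lemma** for the symplectic and the orthogonal Lie algebra. -/
theorem Cl.top (H : Φ.Cl h) (h2 : (2 : k) ≠ 0) (G : Subgroup (GL n k))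
    (hG : ∀ γ ∈ G, ∀ X ∈ h, (γ : Matrix n n k) * X * ((γ⁻¹ : GL n k) : Matrix n n k) ∈ h)
    (hirr : Irred G) (hprim : Primit G) : h = Φ.g := by
  classical
  have hR : ∀ i j, Φ.Rl h i j → Φ.Rl h j i := fun i j hij => H.symm h2 hG hirr hij
  have hsymm : ∀ i j, R1 (Φ := Φ) h i j → R1 (Φ := Φ) h j i := by
    rintro i j (rfl | h3 | ⟨rfl, h3, a, h4, h5⟩)
    · exact Or.inl rfl
    · exact Or.inr (Or.inl (hR _ _ h3))
    · refine Or.inr (Or.inr ⟨(Φ.st_st _).symm, h3, a, hR _ _ h5, ?_⟩)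
      rw [Φ.st_st]
      exact hR _ _ h4
  have hsing : ∀ U : Submodule k (n → k), (∀ X ∈ h, ∀ u ∈ U, X *ᵥ u ∈ U) → ∀ i j,
      Φ.Rl h i j → (Pi.single j 1 : n → k) ∈ U → (Pi.single i 1 : n → k) ∈ U := by
    intro U hU i j hij hj
    have h3 := hU _ hij.1 _ hj
    have h4 : Φ.F i j *ᵥ (Pi.single j 1 : n → k) = Φ.F i j i j • Pi.single i 1 := by
      rw [mulVec_single_one]
      ext p
      rw [Pi.smul_apply, smul_eq_mul]
      show Φ.F i j p j = _
      by_cases h5 : p = i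
      · subst h5
        rw [Pi.single_eq_same, mul_one]
      · rw [Pi.single_eq_of_ne h5, mul_zero, F_apply, if_neg (fun h6 => h5 h6.1.symm),
          if_neg (fun h6 => h5 ?_), sub_zero]
        rw [← h6.1, ← h6.2, Φ.st_st]
    rw [h4] at h3
    exact (U.smul_mem_iff hij.2).1 h3
  have hall := all_rel h (R1 (Φ := Φ) h) (fun _ => Or.inl rfl) hsymm
    (fun _ _ _ h3 h4 => H.R1_trans h2 h3 h4) (fun X hX j v hv i hi => by
      rw [mulVec, dotProduct]
      refine Finset.sum_eq_zero fun l _ => ?_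
      by_cases h3 : X i l = 0
      · rw [h3, zero_mul]
      by_cases h4 : R1 (Φ := Φ) h l j
      · exact absurd (H.R1_trans h2 (Or.inr (Or.inl (H.rel_of_ne h2 hX h3))) h4) hi
      · rw [hv l h4, mul_zero]) (fun U hU j u hu huj v hv => by
      have h3 := H.coord h2 U hU j u hu huj
      have h5 : v = ∑ i, v i • (Pi.single i 1 : n → k) := by
        ext i
        rw [Finset.sum_apply]
        simp [Pi.single_apply]
      rw [h5]
      refine U.sum_mem fun i _ => ?_
      by_cases hi : R1 (Φ := Φ) h i j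
      · refine U.smul_mem _ ?_
        rcases hi with rfl | h4 | ⟨rfl, _, a, h6, h7⟩
        · exact h3
        · exact hsing U hU _ _ h4 h3
        · exact hsing U hU _ _ h6 (hsing U hU _ _ h7 h3)
      · rw [hv i hi, zero_smul]
        exact U.zero_mem) G hG hprim
  have hF : ∀ i j, Φ.F i j ∈ h := by
    intro i j
    rcases hall i j with rfl | h3 | ⟨rfl, h3, _⟩
    · exact H.diag i
    · exact h3.1
    · have h4 : Φ.F i (Φ.st i) = 0 := by
        ext p q
        rw [F, Φ.st_st, Φ.s_st, h3, one_mul, sub_self]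
      rw [h4]
      exact h.zero_mem
  refine le_antisymm H.le fun X hX => ?_
  have h3 : (2 : k) • X = ∑ i, ∑ j, (X i j * (Φ.s j)⁻¹) • Φ.F i j := by
    have e1 : ∑ i, ∑ j, (X i j * (Φ.s j)⁻¹) • single (Φ.st j) (Φ.st i) (Φ.s i) = -X := by
      have e2 : ∀ i j, (X i j * (Φ.s j)⁻¹) • single (Φ.st j) (Φ.st i) (Φ.s i) =
          -single (Φ.st j) (Φ.st i) (X (Φ.st j) (Φ.st i)) := by
        intro i j
        ext p q
        rw [Matrix.smul_apply, Matrix.neg_apply, single_apply, single_apply, smul_eq_mul]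
        split_ifs
        · have h4 := hX i j
          have h5 := Φ.s_ne j
          field_simp
          linear_combination h4
        · ring
      simp only [e2, Finset.sum_neg_distrib]
      congr 1
      conv_rhs => rw [matrix_eq_sum_single X]
      rw [Finset.sum_comm]
      refine Finset.sum_nbij' Φ.st Φ.st (by simp) (by simp) (by simp [Φ.st_st])
        (by simp [Φ.st_st]) fun j _ => ?_
      refine Finset.sum_nbij' Φ.st Φ.st (by simp) (by simp) (by simp [Φ.st_st])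
        (by simp [Φ.st_st]) fun i _ => rfl
    have e3 : ∑ i, ∑ j, (X i j * (Φ.s j)⁻¹) • single i j (Φ.s j) = X := by
      conv_rhs => rw [matrix_eq_sum_single X]
      refine Finset.sum_congr rfl fun i _ => Finset.sum_congr rfl fun j _ => ?_
      rw [smul_single, smul_eq_mul, mul_assoc, inv_mul_cancel₀ (Φ.s_ne j), mul_one]
    simp only [F, smul_sub, Finset.sum_sub_distrib]
    rw [e1, e3, sub_neg_eq_add, two_smul]
  rw [← h.smul_mem_iff h2, h3]
  exact h.sum_mem fun i _ => h.sum_mem fun j _ => h.smul_mem _ (hF i j)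

end Frm

end Pool.Agent.Helper47.TG
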