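import Pool.Agent.Helper47.TG.ClsB

/-!
Density lemma for symplectic and orthogonal similitudes (MP_78e9a5_nt, TensorGenerated), part 3:
weights of the words.
-/

open Matrix

namespace Pool.Agent.Helper47.TG

section

variable {n : Type*} [DecidableEq n]

/-- the weight of an index: `δ_j` for the linear group, `δ_j - δ_(st j)` for the similitudes -/
def wt (K : Option (n → n)) (j : n) : n → ℤ := match K with
  | none => Pi.single j 1
  | some st => Pi.single j 1 - Pi.single (st j) 1

theorem wt_some (st : n → n) (j x : n) : wt (some st) j x =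
    (if x = j then 1 else 0) - (if x = st j then 1 else 0) := by
  rw [wt, Pi.sub_apply, Pi.single_apply, Pi.single_apply]

variable {st : n → n} (hst : ∀ j, st (st j) = j) (hfix : ∀ i j, st i = i → st j = j → i = j)

theorem wt_z1 {x : n} (h : wt (some st) x = 0) : st x = x := by
  have h1 := congrFun h x
  rw [wt_some, if_pos rfl, Pi.zero_apply] at h1
  by_contra h2
  rw [if_neg (fun h3 => h2 h3.symm)] at h1
  omega

theorem wt_fix {x : n} (h : st x = x) : wt (some st) x = 0 := by
  ext y
  rw [wt_some, h, sub_self, Pi.zero_apply]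

include hst

theorem wt_st (x : n) : wt (some st) (st x) = -wt (some st) x := by
  ext y
  rw [Pi.neg_apply, wt_some, wt_some, hst]
  ring

include hfix

theorem wt_z2 {x y : n} (h : wt (some st) x + wt (some st) y = 0) : y = st x := by
  by_cases h1 : st x = x
  · rw [wt_fix h1, zero_add] at h
    rw [h1]
    exact hfix _ _ (wt_z1 h) h1
  · have h2 := congrFun h x
    rw [Pi.add_apply, wt_some, wt_some, if_pos rfl, if_neg (fun h3 => h1 h3.symm),
      Pi.zero_apply] at h2
    by_contra h3
    rw [if_neg (fun h4 : x = st y => h3 (by rw [h4, hst]))] at h2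
    split_ifs at h2
    all_goals omega

theorem wt_z3 {x y z : n} (h : wt (some st) x + wt (some st) y + wt (some st) z = 0) :
    (st x = x ∧ z = st y) ∨ (st y = y ∧ z = st x) ∨ (st z = z ∧ y = st x) := by
  by_cases h1 : st x = x
  · rw [wt_fix h1, zero_add] at h
    exact Or.inl ⟨h1, wt_z2 hst hfix h⟩
  · have h2 := congrFun h x
    rw [Pi.add_apply, Pi.add_apply, wt_some, wt_some, wt_some, if_pos rfl,
      if_neg (fun h3 => h1 h3.symm), Pi.zero_apply] at h2
    by_cases h3 : x = st y
    · have h4 : y = st x := by rw [h3, hst]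
      rw [h4, wt_st hst, add_neg_cancel, zero_add] at h
      exact Or.inr (Or.inr ⟨wt_z1 h, h4⟩)
    · by_cases h5 : x = st z
      · have h4 : z = st x := by rw [h5, hst]
        have h6 : wt (some st) y = 0 := by
          rw [h4, wt_st hst] at h
          have : wt (some st) x + wt (some st) y + -wt (some st) x = wt (some st) y := by abel
          rwa [this] at h
        exact Or.inr (Or.inl ⟨wt_z1 h6, h4⟩)
      · rw [if_neg h3, if_neg h5] at h2
        split_ifs at h2
        all_goals omega

theorem wt_z4 {x y z w : n}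
    (h : wt (some st) x + wt (some st) y + wt (some st) z + wt (some st) w = 0) :
    (y = st x ∧ w = st z) ∨ (z = st x ∧ w = st y) ∨ (w = st x ∧ z = st y) := by
  by_cases h1 : st x = x
  · rw [wt_fix h1, zero_add] at h
    rcases wt_z3 hst hfix h with ⟨h2, h3⟩ | ⟨h2, h3⟩ | ⟨h2, h3⟩
    · exact Or.inl ⟨by rw [h1]; exact hfix _ _ h2 h1, h3⟩
    · exact Or.inr (Or.inl ⟨by rw [h1]; exact hfix _ _ h2 h1, h3⟩)
    · exact Or.inr (Or.inr ⟨by rw [h1]; exact hfix _ _ h2 h1, h3⟩)
  · have h2 := congrFun h x
    rw [Pi.add_apply, Pi.add_apply, Pi.add_apply, wt_some, wt_some, wt_some, wt_some, if_pos rfl,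
      if_neg (fun h3 => h1 h3.symm), Pi.zero_apply] at h2
    by_cases h3 : x = st y
    · have h4 : y = st x := by rw [h3, hst]
      have h5 : wt (some st) z + wt (some st) w = 0 := by
        rw [h4, wt_st hst, add_neg_cancel, zero_add] at h
        exact h
      exact Or.inl ⟨h4, wt_z2 hst hfix h5⟩
    · by_cases h5 : x = st z
      · have h4 : z = st x := by rw [h5, hst]
        have h6 : wt (some st) y + wt (some st) w = 0 := by
          rw [h4, wt_st hst] at h
          have : wt (some st) x + wt (some st) y + -wt (some st) x + wt (some st) w =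
            wt (some st) y + wt (some st) w := by abel
          rwa [this] at h
        exact Or.inr (Or.inl ⟨h4, wt_z2 hst hfix h6⟩)
      · by_cases h7 : x = st w
        · have h4 : w = st x := by rw [h7, hst]
          have h6 : wt (some st) y + wt (some st) z = 0 := by
            rw [h4, wt_st hst] at h
            have : wt (some st) x + wt (some st) y + wt (some st) z + -wt (some st) x =
              wt (some st) y + wt (some st) z := by abel
            rwa [this] at h
          exact Or.inr (Or.inr ⟨h4, wt_z2 hst hfix h6⟩)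
        · rw [if_neg h3, if_neg h5, if_neg h7] at h2
          split_ifs at h2
          all_goals omega

/-- the pairs with the same weight -/
theorem wt_pair {j a p q : n} (hja : j ≠ a) :
    wt (some st) p = wt (some st) q + (wt (some st) j - wt (some st) a) ↔
      (p = j ∧ q = a) ∨ (p = st a ∧ q = st j) := by
  constructor
  · intro h
    have h1 : wt (some st) p + wt (some st) (st q) + wt (some st) a + wt (some st) (st j) = 0 := by
      rw [h, wt_st hst, wt_st hst]
      abel
    rcases wt_z4 hst hfix h1 with ⟨h2, h3⟩ | ⟨h2, h3⟩ | ⟨h2, h3⟩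
    · exfalso
      refine hja ?_
      rw [← hst j, h3, hst]
    · right
      refine ⟨by rw [h2, hst], ?_⟩
      rw [h3, hst]
    · left
      refine ⟨?_, ?_⟩
      · rw [← hst j, h2, hst]
      · rw [h3, hst]
  · rintro (⟨rfl, rfl⟩ | ⟨rfl, rfl⟩)
    · abel
    · rw [wt_st hst, wt_st hst]
      abel

end

section

variable {k : Type*} [Field k] {ι : Type*} [DecidableEq ι] {J : ι → Type*} [∀ i, Fintype (J i)]
  [∀ i, DecidableEq (J i)] {R : Type*} [Fintype R] [DecidableEq R] (b : R → ι)
  (K : (i : ι) → Option (J i → J i))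

/-- the weight of a word -/
def W (q : Wd J b) : (i : ι) → J i → ℤ := ∑ r, Pi.single (b r) (wt (K (b r)) (q r))

/-- the eigenvalues are generic: the products over two words agree only if the words have the same
weight -/
def GenC (α : (i : ι) → J i → k) : Prop := ∀ q q' : Wd J b,
  ∏ r, α (b r) (q r) = ∏ r, α (b r) (q' r) → W b K q = W b K q'

omit [DecidableEq ι] in
/-- a function of the eigenvalue -/
theorem fun_mem (S : Subalgebra k (Matrix (Wd J b) (Wd J b) k)) (ev F : Wd J b → k)
    (hS : diagonal ev ∈ S) (hev : ∀ q q', ev q = ev q' → F q = F q') : diagonal F ∈ S := by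
  classical
  let F' : k → k := fun t => if h : ∃ q : Wd J b, ev q = t then F h.choose else 0
  have hF : ∀ q : Wd J b, F' (ev q) = F q := by
    intro q
    have h : ∃ q' : Wd J b, ev q' = ev q := ⟨q, rfl⟩
    show (if h : ∃ q' : Wd J b, ev q' = ev q then F h.choose else 0) = _
    rw [dif_pos h]
    exact hev _ _ h.choose_spec
  let P : Polynomial k := Lagrange.interpolate (Finset.univ.image ev) id F'
  have hP : ∀ q : Wd J b, P.eval (ev q) = F q := by
    intro q
    rw [← hF q]
    exact Lagrange.eval_interpolate_at_node F' (Set.injOn_id _)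
      (Finset.mem_image_of_mem ev (Finset.mem_univ q))
  have h1 : Polynomial.aeval (diagonal ev : Matrix (Wd J b) (Wd J b) k) P = diagonal F := by
    have h2 := Polynomial.aeval_algHom_apply (Matrix.diagonalAlgHom (n := Wd J b) (α := k) k) ev P
    have h3 : Matrix.diagonalAlgHom (n := Wd J b) (α := k) k ev = diagonal ev := rfl
    rw [h3] at h2
    rw [h2]
    show diagonal (Polynomial.aeval ev P) = _
    congr 1
    funext q
    rw [← hP q]
    have h4 := Polynomial.aeval_algHom_apply (Pi.evalAlgHom k (fun _ : Wd J b => k) q) ev P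
    rw [← Polynomial.coe_aeval_eq_eval]
    exact h4.symm
  rw [← h1]
  exact (Algebra.adjoin_le (Set.singleton_subset_iff.2 hS))
    (Polynomial.aeval_mem_adjoin_singleton k _)

variable {b K}

/-- the functions of the weight -/
theorem GenC.mem {S : Subalgebra k (Matrix (Wd J b) (Wd J b) k)} {α : (i : ι) → J i → k}
    (hgen : GenC b K α) (hS : T b (fun i => diagonal (α i)) ∈ S) (F : Wd J b → k)
    (hF : ∀ q q', W b K q = W b K q' → F q = F q') : diagonal F ∈ S := by
  rw [T_diagonal] at hS
  exact fun_mem b S _ F hS fun q q' h => hF q q' (hgen q q' h)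

omit [DecidableEq ι] in
theorem slot_entry (r : R) (X : Matrix (J (b r)) (J (b r)) k) (p q : Wd J b) :
    slot b r X p q = X (p r) (q r) * ∏ s ∈ Finset.univ.erase r, if p s = q s then (1 : k) else 0 := by
  rw [slot_apply, TT_apply, ← Finset.mul_prod_erase _ _ (Finset.mem_univ r), Pi.mulSingle_eq_same]
  congr 1
  refine Finset.prod_congr rfl fun s hs => ?_
  rw [Pi.mulSingle_eq_of_ne (Finset.ne_of_mem_erase hs), Matrix.one_apply]

variable [Fintype ι]

/-- the weight components of an element -/
theorem GenC.comp_mem {S : Subalgebra k (Matrix (Wd J b) (Wd J b) k)} {α : (i : ι) → J i → k}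
    (hgen : GenC b K α) (hS : T b (fun i => diagonal (α i)) ∈ S) {Y : Matrix (Wd J b) (Wd J b) k}
    (hY : Y ∈ S) (μ : (i : ι) → J i → ℤ) :
    (Matrix.of fun p q => if W b K p = W b K q + μ then Y p q else 0) ∈ S := by
  have h1 : (Matrix.of fun p q => if W b K p = W b K q + μ then Y p q else 0) =
      ∑ s ∈ Finset.univ.image (W b K), diagonal (fun p => if W b K p = s + μ then (1 : k) else 0) *
        Y * diagonal (fun q => if W b K q = s then (1 : k) else 0) := by
    ext p q
    rw [Matrix.of_apply, Matrix.sum_apply]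
    simp only [mul_diagonal, diagonal_mul]
    rw [Finset.sum_eq_single (W b K q)]
    · rw [if_pos rfl, mul_one, ite_mul, one_mul, zero_mul]
    · intro s _ hs
      rw [if_neg (fun h : W b K q = s => hs h.symm), mul_zero]
    · intro h
      exact absurd (Finset.mem_image_of_mem _ (Finset.mem_univ q)) h
  rw [h1]
  refine S.sum_mem fun s _ => S.mul_mem (S.mul_mem ?_ hY) ?_
  · exact hgen.mem hS _ fun q q' h => by rw [h]
  · exact hgen.mem hS _ fun q q' h => by rw [h]

theorem L_comp (X : (i : ι) → Matrix (J i) (J i) k) (μ : (i : ι) → J i → ℤ) :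
    (Matrix.of fun p q => if W b K p = W b K q + μ then L b X p q else 0) =
      L b (fun i => Matrix.of fun x y =>
        if (Pi.single i (wt (K i) x) : (i : ι) → J i → ℤ) = Pi.single i (wt (K i) y) + μ
          then X i x y else 0) := by
  ext p q
  rw [Matrix.of_apply, L_apply, L_apply, Matrix.sum_apply, Matrix.sum_apply]
  have h1 : (if W b K p = W b K q + μ then ∑ r, slot b r (X (b r)) p q else 0) =
      ∑ r, if W b K p = W b K q + μ then slot b r (X (b r)) p q else 0 := by
    split_ifs
    · rfl
    · rw [Finset.sum_const_zero]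
  rw [h1]
  refine Finset.sum_congr rfl fun r _ => ?_
  rw [slot_entry, slot_entry, Matrix.of_apply]
  by_cases h : ∀ s, s ≠ r → p s = q s
  · have h2 : (W b K p = W b K q + μ) ↔ ((Pi.single (b r) (wt (K (b r)) (p r)) :
        (i : ι) → J i → ℤ) = Pi.single (b r) (wt (K (b r)) (q r)) + μ) := by
      have h3 : ∀ q : Wd J b, W b K q = (Pi.single (b r) (wt (K (b r)) (q r)) :
          (i : ι) → J i → ℤ) + ∑ s ∈ Finset.univ.erase r,
            Pi.single (b s) (wt (K (b s)) (q s)) := fun q =>
        (Finset.add_sum_erase _ _ (Finset.mem_univ r)).symm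
      have h4 : ∑ s ∈ Finset.univ.erase r, (Pi.single (b s) (wt (K (b s)) (p s)) :
          (i : ι) → J i → ℤ) = ∑ s ∈ Finset.univ.erase r, Pi.single (b s) (wt (K (b s)) (q s)) :=
        Finset.sum_congr rfl fun s hs => by rw [h s (Finset.ne_of_mem_erase hs)]
      rw [h3, h3, h4, add_right_comm, add_left_inj]
    rw [if_congr h2 rfl rfl, ite_mul, zero_mul]
  · push Not at h
    obtain ⟨s, hs, hs2⟩ := h
    rw [Finset.prod_eq_zero (Finset.mem_erase.2 ⟨hs, Finset.mem_univ s⟩) (if_neg hs2), mul_zero,
      mul_zero, ite_self]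

omit [Fintype ι] in
/-- the weights of the letters are functions of the weights of the words -/
theorem GenC.diag_mem {S : Subalgebra k (Matrix (Wd J b) (Wd J b) k)} {α : (i : ι) → J i → k}
    (hgen : GenC b K α) (hS : T b (fun i => diagonal (α i)) ∈ S) (i : ι) (j : J i) :
    L b (Pi.single i (diagonal fun x => ((wt (K i) x j : ℤ) : k))) ∈ S := by
  have h1 : (Pi.single i (diagonal fun x => ((wt (K i) x j : ℤ) : k)) :
      (i : ι) → Matrix (J i) (J i) k) =
      fun i' => diagonal ((Pi.single i (fun x => ((wt (K i) x j : ℤ) : k)) :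
        (i : ι) → J i → k) i') := by
    funext i'
    by_cases h : i' = i
    · subst h
      rw [Pi.single_eq_same, Pi.single_eq_same]
    · rw [Pi.single_eq_of_ne h, Pi.single_eq_of_ne h]
      exact (diagonal_zero).symm
  rw [h1, L_diagonal]
  have h2 : ∀ q : Wd J b, ∑ r, (Pi.single i (fun x => ((wt (K i) x j : ℤ) : k)) :
      (i : ι) → J i → k) (b r) (q r) = ((W b K q i j : ℤ) : k) := by
    intro q
    rw [W, Finset.sum_apply, Finset.sum_apply, Int.cast_sum]
    refine Finset.sum_congr rfl fun r _ => ?_
    by_cases h : b r = i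
    · subst h
      rw [Pi.single_eq_same, Pi.single_eq_same]
    · rw [Pi.single_eq_of_ne h, Pi.single_eq_of_ne (fun h' => h h'.symm), Pi.zero_apply,
        Pi.zero_apply, Int.cast_zero]
  exact hgen.mem hS _ fun q q' h => by rw [h2, h2, h]

end

end Pool.Agent.Helper47.TG
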