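import Pool.Agent.Helper47.TG.ClsC

/-!
Density lemma for symplectic and orthogonal similitudes (MP_78e9a5_nt, TensorGenerated), part 4:
the density lemma for a diagonal generic element.
-/

open Matrix

namespace Pool.Agent.Helper47.TG

namespace Frm

variable {k n : Type*} [Field k] (Φ : Frm k n)

section

variable [DecidableEq n]

/-- the matrix of the form -/
def mat : Matrix n n k := Matrix.of fun i j => if j = Φ.st i then Φ.s i else 0

theorem mat_apply (i j : n) : Φ.mat i j = if j = Φ.st i then Φ.s i else 0 := rfl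

variable [Fintype n]

theorem mat_mul_apply (X : Matrix n n k) (p q : n) : (Φ.mat * X) p q = Φ.s p * X (Φ.st p) q := by
  rw [Matrix.mul_apply, Finset.sum_eq_single (Φ.st p)]
  · rw [mat_apply, if_pos rfl]
  · intro c _ hc
    rw [mat_apply, if_neg hc, zero_mul]
  · intro h
    exact absurd (Finset.mem_univ _) h

theorem mul_mat_apply (X : Matrix n n k) (p q : n) :
    (X * Φ.mat) p q = X p (Φ.st q) * Φ.s (Φ.st q) := by
  rw [Matrix.mul_apply, Finset.sum_eq_single (Φ.st q)]
  · rw [mat_apply, Φ.st_st, if_pos rfl]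
  · intro c _ hc
    rw [mat_apply, if_neg (fun h => hc (by rw [h, Φ.st_st])), mul_zero]
  · intro h
    exact absurd (Finset.mem_univ _) h

theorem mem_g_iff (X : Matrix n n k) : X ∈ Φ.g ↔ Xᵀ * Φ.mat + Φ.mat * X = 0 := by
  constructor
  · intro h
    ext p q
    rw [Matrix.add_apply, mat_mul_apply, mul_mat_apply, Matrix.transpose_apply, Matrix.zero_apply]
    have h1 := h (Φ.st q) p
    rw [Φ.st_st] at h1
    rw [h1]
    ring
  · intro h j a
    have h1 := congrFun (congrFun h a) (Φ.st j)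
    rw [Matrix.add_apply, mat_mul_apply, mul_mat_apply, Matrix.transpose_apply, Matrix.zero_apply,
      Φ.st_st] at h1
    linear_combination h1

theorem bracket_mem {X Y : Matrix n n k} (hX : X ∈ Φ.g) (hY : Y ∈ Φ.g) :
    X * Y - Y * X ∈ Φ.g := by
  rw [mem_g_iff] at hX hY ⊢
  have hX' : Xᵀ * Φ.mat = -(Φ.mat * X) := eq_neg_of_add_eq_zero_left hX
  have hY' : Yᵀ * Φ.mat = -(Φ.mat * Y) := eq_neg_of_add_eq_zero_left hY
  rw [transpose_sub, transpose_mul, transpose_mul, sub_mul, mul_sub, mul_assoc, mul_assoc, hX',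
    hY', mul_neg, mul_neg, ← mul_assoc, ← mul_assoc, hX', hY', neg_mul, neg_mul, mul_assoc,
    mul_assoc]
  abel

/-- similitudes preserve the Lie algebra -/
theorem conj_mem {X : Matrix n n k} (hX : X ∈ Φ.g) (γ : GL n k) (c : k)
    (hγ : (γ : Matrix n n k)ᵀ * Φ.mat * (γ : Matrix n n k) = c • Φ.mat) :
    (γ : Matrix n n k) * X * ((γ⁻¹ : GL n k) : Matrix n n k) ∈ Φ.g := by
  rw [mem_g_iff] at hX ⊢
  have h1 : (γ : Matrix n n k)ᵀ * Φ.mat = c • (Φ.mat * ((γ⁻¹ : GL n k) : Matrix n n k)) := by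
    have h3 := congrArg (· * ((γ⁻¹ : GL n k) : Matrix n n k)) hγ
    rw [mul_assoc, gl_mul_inv, mul_one, smul_mul_assoc] at h3
    exact h3
  have h4 : ((γ⁻¹ : GL n k) : Matrix n n k)ᵀ * (γ : Matrix n n k)ᵀ = 1 := by
    rw [← transpose_mul, gl_mul_inv, transpose_one]
  have h5 : Φ.mat * (γ : Matrix n n k) = c • (((γ⁻¹ : GL n k) : Matrix n n k)ᵀ * Φ.mat) := by
    have h3 := congrArg (((γ⁻¹ : GL n k) : Matrix n n k)ᵀ * ·) hγ
    rw [← mul_assoc, ← mul_assoc, h4, one_mul, mul_smul_comm] at h3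
    exact h3
  rw [transpose_mul, transpose_mul]
  have h6 : ((γ⁻¹ : GL n k) : Matrix n n k)ᵀ * (Xᵀ * (γ : Matrix n n k)ᵀ) * Φ.mat =
      c • (((γ⁻¹ : GL n k) : Matrix n n k)ᵀ * (Xᵀ * Φ.mat) * ((γ⁻¹ : GL n k) : Matrix n n k)) := by
    rw [mul_assoc, mul_assoc, h1, mul_smul_comm, mul_smul_comm]
    simp only [mul_assoc]
  have h7 : Φ.mat * ((γ : Matrix n n k) * X * ((γ⁻¹ : GL n k) : Matrix n n k)) =
      c • (((γ⁻¹ : GL n k) : Matrix n n k)ᵀ * (Φ.mat * X) *
        ((γ⁻¹ : GL n k) : Matrix n n k)) := by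
    rw [← mul_assoc, ← mul_assoc, h5, smul_mul_assoc, smul_mul_assoc]
    simp only [mul_assoc]
  rw [h6, h7, ← smul_add, ← add_mul, ← mul_add, hX, mul_zero, zero_mul, smul_zero]

omit [Fintype n] in
theorem comp_mem {X : Matrix n n k} (hX : X ∈ Φ.g) (j a : n) : Φ.comp X j a ∈ Φ.g := by
  intro p q
  rw [comp_apply, comp_apply]
  have h1 : ((Φ.st q = j ∧ Φ.st p = a) ∨ (Φ.st q = Φ.st a ∧ Φ.st p = Φ.st j)) ↔
      ((p = j ∧ q = a) ∨ (p = Φ.st a ∧ q = Φ.st j)) := by
    have sw : ∀ x y : n, (Φ.st x = y) ↔ (x = Φ.st y) := fun x y =>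
      ⟨fun h => by rw [← h, Φ.st_st], fun h => by rw [h, Φ.st_st]⟩
    rw [sw, sw, sw, sw, Φ.st_st, Φ.st_st]
    constructor
    · rintro (⟨h1, h2⟩ | ⟨h1, h2⟩)
      · exact Or.inr ⟨h2, h1⟩
      · exact Or.inl ⟨h2, h1⟩
    · rintro (⟨h1, h2⟩ | ⟨h1, h2⟩)
      · exact Or.inr ⟨h2, h1⟩
      · exact Or.inl ⟨h2, h1⟩
  rw [if_congr h1 rfl rfl]
  split_ifs
  · exact hX p q
  · rw [mul_zero, mul_zero, neg_zero]

omit [Fintype n] in
theorem F_diag (j : n) : (Φ.F j j) = Φ.s j • diagonal fun x => ((wt (some Φ.st) x j : ℤ) : k) := by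
  ext x y
  rw [F_apply, Matrix.smul_apply, diagonal_apply, wt_some, smul_eq_mul]
  by_cases h : x = y
  · subst h
    rw [if_pos rfl]
    have h1 : (Φ.st j = x) ↔ (j = Φ.st x) :=
      ⟨fun h => by rw [← h, Φ.st_st], fun h => by rw [h, Φ.st_st]⟩
    simp only [and_self, h1]
    split_ifs <;> simp
  · rw [if_neg h, mul_zero, if_neg (fun h1 => h (h1.1.symm.trans h1.2)),
      if_neg (fun h1 => h (h1.1.symm.trans h1.2)), sub_zero]

end

end Frm

/-- the Lie algebra of a block: all matrices, or the Lie algebra of a form -/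
def gB {k n : Type*} [Field k] [Fintype n] [DecidableEq n] (B : Option (Frm k n)) :
    Submodule k (Matrix n n k) := match B with
  | none => ⊤
  | some Φ => Φ.g

section

variable {k : Type*} [Field k] {ι : Type*} [DecidableEq ι] {J : ι → Type*} [∀ i, Fintype (J i)]
  [∀ i, DecidableEq (J i)] {R : Type*} [Fintype R] [DecidableEq R] (b : R → ι)

omit [DecidableEq ι] in
theorem T_conj_L {S : Subalgebra k (Matrix (Wd J b) (Wd J b) k)}
    {Γ : Subgroup ((i : ι) → GL (J i) k)} (hS : ∀ γ ∈ Γ, T b (mt γ) ∈ S) {γ : (i : ι) → GL (J i) k}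
    (hγ : γ ∈ Γ) {X : (i : ι) → Matrix (J i) (J i) k} (hX : L b X ∈ S) :
    L b (fun i => (γ i : Matrix (J i) (J i) k) * X i *
      ((γ⁻¹ i : GL (J i) k) : Matrix (J i) (J i) k)) ∈ S := by
  rw [← T_L b γ X]
  exact S.mul_mem (S.mul_mem (hS γ hγ) hX) (hS γ⁻¹ (Γ.inv_mem hγ))

theorem single_conj (γ : (i : ι) → GL (J i) k) (i : ι) (Y : Matrix (J i) (J i) k) :
    (fun i' => (γ i' : Matrix (J i') (J i') k) *
      (Pi.single i Y : (i : ι) → Matrix (J i) (J i) k) i' *
      ((γ⁻¹ i' : GL (J i') k) : Matrix (J i') (J i') k)) =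
      Pi.single i ((γ i : Matrix (J i) (J i) k) * Y *
        (((γ i)⁻¹ : GL (J i) k) : Matrix (J i) (J i) k)) := by
  funext i'
  by_cases h : i' = i
  · subst h
    rw [Pi.single_eq_same, Pi.single_eq_same, Pi.inv_apply]
  · rw [Pi.single_eq_of_ne h, Pi.single_eq_of_ne h, mul_zero, zero_mul]

/-- the density lemma for similitudes, for a diagonal generic element -/
theorem densC_diag [Fintype ι] (h2 : (2 : k) ≠ 0) (B : (i : ι) → Option (Frm k (J i)))
    (Γ : Subgroup ((i : ι) → GL (J i) k))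
    (hΓ : ∀ γ ∈ Γ, ∀ i, ∀ X ∈ gB (B i), (γ i : Matrix (J i) (J i) k) * X *
      (((γ i)⁻¹ : GL (J i) k) : Matrix (J i) (J i) k) ∈ gB (B i))
    (hirr : ∀ i, Irred (Γ.map (Pi.evalMonoidHom (fun i => GL (J i) k) i)))
    (hprim : ∀ i, Primit (Γ.map (Pi.evalMonoidHom (fun i => GL (J i) k) i)))
    (α : (i : ι) → J i → k) (hgen : GenC b (fun i => (B i).map Frm.st) α)
    (S : Subalgebra k (Matrix (Wd J b) (Wd J b) k)) (hα : T b (fun i => diagonal (α i)) ∈ S)
    (hS : ∀ γ ∈ Γ, T b (mt γ) ∈ S) (X : (i : ι) → Matrix (J i) (J i) k)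
    (hX : ∀ i, X i ∈ gB (B i)) : L b X ∈ S := by
  classical
  let f : ∀ i, Matrix (J i) (J i) k →ₗ[k] Matrix (Wd J b) (Wd J b) k := fun i =>
    L b ∘ₗ LinearMap.single k (fun i => Matrix (J i) (J i) k) i
  have hf : ∀ i Y, f i Y = L b (Pi.single i Y) := fun i Y => rfl
  have hbr : ∀ i, ∀ Y, L b (Pi.single i Y) ∈ S → ∀ Z, L b (Pi.single i Z) ∈ S →
      L b (Pi.single i (Y * Z - Z * Y)) ∈ S := by
    intro i Y hY Z hZ
    have h1 : (Pi.single i (Y * Z - Z * Y) : (i : ι) → Matrix (J i) (J i) k) =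
        Pi.single i Y * Pi.single i Z - Pi.single i Z * Pi.single i Y := by
      rw [Pi.single_sub, Pi.single_mul, Pi.single_mul]
    rw [h1, L_bracket]
    exact S.sub_mem (S.mul_mem hY hZ) (S.mul_mem hZ hY)
  have htop : ∀ i, ∀ Y ∈ gB (B i), L b (Pi.single i Y) ∈ S := by
    intro i
    have hΓi := fun γ hγ => hΓ γ hγ i
    have hdg := fun j => hgen.diag_mem hα i j
    have hcm := fun Y (hY : L b (Pi.single i Y) ∈ S) (μ : J i → ℤ) =>
      hgen.comp_mem hα hY (Pi.single i μ)
    simp only [L_comp] at hcm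
    have hcm2 : ∀ Y, L b (Pi.single i Y) ∈ S → ∀ μ : J i → ℤ,
        L b (Pi.single i (Matrix.of fun x y =>
          if wt ((B i).map Frm.st) x = wt ((B i).map Frm.st) y + μ then Y x y else 0)) ∈ S := by
      intro Y hY μ
      have h1 := hcm Y hY μ
      have h3 : (fun i' => Matrix.of fun x y =>
          if (Pi.single i' (wt ((B i').map Frm.st) x) : (i : ι) → J i → ℤ) =
            Pi.single i' (wt ((B i').map Frm.st) y) + Pi.single i μ
          then (Pi.single i Y : (i : ι) → Matrix (J i) (J i) k) i' x y else 0) =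
          Pi.single i (Matrix.of fun x y =>
          if wt ((B i).map Frm.st) x = wt ((B i).map Frm.st) y + μ then Y x y else 0) := by
        funext i'
        by_cases h : i' = i
        · subst h
          rw [Pi.single_eq_same, Pi.single_eq_same]
          ext x y
          rw [Matrix.of_apply, Matrix.of_apply]
          refine if_congr ?_ rfl rfl
          rw [← Pi.single_add]
          exact (Pi.single_injective i').eq_iff
        · rw [Pi.single_eq_of_ne h, Pi.single_eq_of_ne h]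
          ext x y
          rw [Matrix.of_apply, Matrix.zero_apply, ite_self]
      rw [h3] at h1
      exact h1
    clear hcm
    rcases hB : B i with _ | Φ
    · rw [hB] at hdg
      have h1 : (Subalgebra.toSubmodule S).comap (f i) = ⊤ := by
        refine lie_top h2 _ (fun j => ?_) (fun Y hY Z hZ => hbr i Y hY Z hZ)
          (Γ.map (Pi.evalMonoidHom (fun i => GL (J i) k) i)) ?_ (hirr i) (hprim i)
        · rw [Submodule.mem_comap, hf, Subalgebra.mem_toSubmodule]
          have h1 : (diagonal fun x => ((wt (Option.map Frm.st (none : Option (Frm k (J i)))) x j :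
              ℤ) : k)) = single j j (1 : k) := by
            ext x y
            rw [diagonal_apply, single_apply]
            simp only [Option.map_none, wt, Pi.single_apply]
            by_cases h : x = y
            · subst h
              by_cases h3 : j = x
              · subst h3
                simp
              · simp [h3]
            · rw [if_neg h, if_neg (fun h3 => h (h3.1.symm.trans h3.2))]
          rw [← h1]
          exact hdg j
        · rintro _ ⟨γ, hγ, rfl⟩ Y hY
          rw [Submodule.mem_comap, hf, Subalgebra.mem_toSubmodule] at hY ⊢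
          have h3 := T_conj_L b hS hγ hY
          rw [single_conj] at h3
          exact h3
      intro Y _
      have h3 : Y ∈ (Subalgebra.toSubmodule S).comap (f i) := by
        rw [h1]
        exact Submodule.mem_top
      exact h3
    · rw [hB] at hdg hΓi hcm2
      have hcl : Φ.Cl ((Subalgebra.toSubmodule S).comap (f i) ⊓ Φ.g) := by
        refine ⟨inf_le_right, fun Y hY j a hja => ⟨?_, ?_⟩, fun j => ⟨?_, Φ.F_mem j j⟩,
          fun Y hY Z hZ => ⟨hbr i Y hY.1 Z hZ.1, ?_⟩⟩
        · have h3 := hcm2 Y hY.1 (wt (some Φ.st) j - wt (some Φ.st) a)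
          have h4 : (Matrix.of fun x y =>
              if wt (Option.map Frm.st (some Φ)) x = wt (Option.map Frm.st (some Φ)) y +
                (wt (some Φ.st) j - wt (some Φ.st) a) then Y x y else 0) = Φ.comp Y j a := by
            ext x y
            rw [Matrix.of_apply, Frm.comp_apply]
            exact if_congr (wt_pair Φ.st_st Φ.fix hja) rfl rfl
          rw [h4] at h3
          exact h3
        · exact Φ.comp_mem hY.2 j a
        · have h3 := S.smul_mem (hdg j) (Φ.s j)
          rw [← map_smul, ← Pi.single_smul] at h3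
          rw [SetLike.mem_coe, Submodule.mem_comap, hf, Subalgebra.mem_toSubmodule, Φ.F_diag]
          exact h3
        · exact Φ.bracket_mem hY.2 hZ.2
      have h1 := hcl.top h2 (Γ.map (Pi.evalMonoidHom (fun i => GL (J i) k) i)) (by
        rintro _ ⟨γ, hγ, rfl⟩ Y hY
        refine ⟨?_, hΓi γ hγ Y hY.2⟩
        have h0 : L b (Pi.single i Y) ∈ S := hY.1
        have h3 := T_conj_L b hS hγ h0
        rw [single_conj] at h3
        exact h3) (hirr i) (hprim i)
      intro Y hY
      have h3 : Y ∈ Φ.g := hY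
      rw [← h1] at h3
      exact h3.1
  have h1 : X = ∑ i, Pi.single i (X i) := (Finset.univ_sum_single X).symm
  rw [h1, map_sum]
  exact S.sum_mem fun i _ => htop i _ (hX i)

end

end Pool.Agent.Helper47.TG
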