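import Pool.Agent.Helper47.TG.Dens

/-!
Density lemma, part 5 (MP_78e9a5_nt, TensorGenerated): change of basis.
-/

open Matrix

namespace Pool.Agent.Helper47.TG

section

variable {k : Type*} [Field k] {n : Type*} [Fintype n] [DecidableEq n]

theorem gl_mul_inv (P : GL n k) : (P : Matrix n n k) * ((P⁻¹ : GL n k) : Matrix n n k) = 1 := by
  rw [← Units.val_mul, mul_inv_cancel, Units.val_one]

theorem gl_inv_mul (P : GL n k) : ((P⁻¹ : GL n k) : Matrix n n k) * (P : Matrix n n k) = 1 := by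
  rw [← Units.val_mul, inv_mul_cancel, Units.val_one]

/-- the linear automorphism of an invertible matrix -/
def glE (P : GL n k) : (n → k) ≃ₗ[k] (n → k) :=
  LinearEquiv.ofLinearMap (Matrix.mulVecLin (P : Matrix n n k))
    (Matrix.mulVecLin ((P⁻¹ : GL n k) : Matrix n n k))
    (by
      ext v
      simp only [LinearMap.comp_apply, mulVecLin_apply, mulVec_mulVec, gl_mul_inv, one_mulVec]
      rfl)
    (by
      ext v
      simp only [LinearMap.comp_apply, mulVecLin_apply, mulVec_mulVec, gl_inv_mul, one_mulVec]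
      rfl)

theorem glE_apply (P : GL n k) (v : n → k) : glE P v = (P : Matrix n n k) *ᵥ v := rfl

/-- the image of the subspaces -/
def glO (P : GL n k) : Submodule k (n → k) ≃o Submodule k (n → k) :=
  Submodule.orderIsoMapComap (glE P)

theorem glO_apply (P : GL n k) (U : Submodule k (n → k)) :
    glO P U = U.map (Matrix.mulVecLin (P : Matrix n n k)) := rfl

theorem mem_glO (P : GL n k) (U : Submodule k (n → k)) (v : n → k) :
    v ∈ glO P U ↔ ((P⁻¹ : GL n k) : Matrix n n k) *ᵥ v ∈ U := by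
  rw [glO_apply]
  constructor
  · rintro ⟨u, hu, rfl⟩
    rw [mulVecLin_apply, mulVec_mulVec, gl_inv_mul, one_mulVec]
    exact hu
  · intro h
    refine ⟨_, h, ?_⟩
    rw [mulVecLin_apply, mulVec_mulVec, gl_mul_inv, one_mulVec]

/-- the conjugate group -/
def cj (P : GL n k) (G : Subgroup (GL n k)) : Subgroup (GL n k) :=
  G.map (MulAut.conj P⁻¹).toMonoidHom

theorem mem_cj {P : GL n k} {G : Subgroup (GL n k)} {γ : GL n k} :
    γ ∈ cj P G ↔ P * γ * P⁻¹ ∈ G := by
  constructor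
  · rintro ⟨δ, hδ, rfl⟩
    have : P * (P⁻¹ * δ * P⁻¹⁻¹) * P⁻¹ = δ := by group
    show P * (P⁻¹ * δ * P⁻¹⁻¹) * P⁻¹ ∈ G
    rw [this]
    exact hδ
  · intro h
    refine ⟨_, h, ?_⟩
    show P⁻¹ * (P * γ * P⁻¹) * P⁻¹⁻¹ = γ
    group

theorem irred_conj {G : Subgroup (GL n k)} (h : Irred G) (P : GL n k) : Irred (cj P G) := by
  intro U hU
  have h1 := h (glO P U) ?_
  · rcases h1 with h1 | h1
    · exact Or.inl ((map_eq_bot_iff (glO P)).1 h1)
    · exact Or.inr ((map_eq_top_iff (glO P)).1 h1)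
  · intro γ hγ u hu
    rw [mem_glO] at hu ⊢
    have h2 := hU (P⁻¹ * γ * P) (by rw [mem_cj]; simpa [mul_assoc] using hγ) _ hu
    rw [mulVec_mulVec, Units.val_mul, Units.val_mul, mul_assoc, gl_mul_inv, mul_one] at h2
    rw [mulVec_mulVec]
    exact h2

theorem sSupIndep_image_orderIso {α β : Type*} [CompleteLattice α] [CompleteLattice β]
    (o : α ≃o β) {s : Set α} (h : sSupIndep s) : sSupIndep (o '' s) := by
  rintro _ ⟨a, ha, rfl⟩
  have h1 : o '' s \ {o a} = o '' (s \ {a}) := by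
    rw [Set.image_sdiff o.injective, Set.image_singleton]
  have h2 : sSup (o '' (s \ {a})) = o (sSup (s \ {a})) := by
    rw [sSup_image, o.map_sSup]
  rw [h1, h2]
  exact (h ha).map_orderIso o

theorem primit_conj {G : Subgroup (GL n k)} (h : Primit G) (P : GL n k) : Primit (cj P G) := by
  intro S hS h0 hind hsup hperm
  refine h (glO P '' S) (hS.image (glO P).injective) ?_ (sSupIndep_image_orderIso _ hind) ?_ ?_
  · rintro _ ⟨U, hU, rfl⟩ h1
    exact h0 U hU ((map_eq_bot_iff (glO P)).1 h1)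
  · rw [sSup_image, ← (glO P).map_sSup, hsup, map_top]
  · rintro γ hγ _ ⟨U, hU, rfl⟩
    refine ⟨_, hperm (P⁻¹ * γ * P) (by rw [mem_cj]; simpa [mul_assoc] using hγ) U hU, ?_⟩
    rw [glO_apply, glO_apply, ← Submodule.map_comp, ← Submodule.map_comp]
    congr 1
    ext v i
    simp only [LinearMap.comp_apply, mulVecLin_apply, mulVec_mulVec, Units.val_mul]
    rw [← mul_assoc, ← mul_assoc, gl_mul_inv, one_mul]

end

section

variable {k : Type*} [Field k] {ι : Type*} {J : ι → Type*} [∀ i, Fintype (J i)]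
  [∀ i, DecidableEq (J i)] {R : Type*} [Fintype R] [DecidableEq R] (b : R → ι)

/-- **Density lemma.** `g` in `Γ` is diagonal in the basis `P`, with generic eigenvalues `α`. -/
theorem dens [Fintype ι] [DecidableEq ι] (h2 : (2 : k) ≠ 0)
    (hN : (((Fintype.card R).factorial : ℕ) : k) ≠ 0) (Γ : Subgroup ((i : ι) → GL (J i) k))
    (hirr : ∀ i, Irred (Γ.map (Pi.evalMonoidHom (fun i => GL (J i) k) i)))
    (hprim : ∀ i, Primit (Γ.map (Pi.evalMonoidHom (fun i => GL (J i) k) i)))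
    (g : (i : ι) → GL (J i) k) (hg : g ∈ Γ) (P : (i : ι) → GL (J i) k)
    (α : (i : ι) → J i → k) (hα : ∀ i, (g i : Matrix (J i) (J i) k) =
      (P i : Matrix (J i) (J i) k) * diagonal (α i) *
      (((P i)⁻¹ : GL (J i) k) : Matrix (J i) (J i) k)) (hgen : Gen b α)
    (S : Subalgebra k (Matrix (Wd J b) (Wd J b) k))
    (hS : ∀ γ ∈ Γ, T b (mt γ) ∈ S) (x : (i : ι) → Matrix (J i) (J i) k) : T b x ∈ S := by
  classical
  have hmt : ∀ γ δ : (i : ι) → GL (J i) k, mt (γ * δ) = mt γ * mt δ := fun γ δ => by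
    funext i
    rfl
  have e1 : T b (mt P) * T b (mt P⁻¹) = 1 := by
    rw [← map_mul, ← hmt, mul_inv_cancel]
    exact map_one (T b)
  have e2 : T b (mt P⁻¹) * T b (mt P) = 1 := by
    rw [← map_mul, ← hmt, inv_mul_cancel]
    exact map_one (T b)
  let c : Matrix (Wd J b) (Wd J b) k →ₐ[k] Matrix (Wd J b) (Wd J b) k :=
    { toFun := fun Y => T b (mt P) * Y * T b (mt P⁻¹)
      map_one' := by rw [mul_one, e1]
      map_mul' := fun Y Z => by
        calc T b (mt P) * (Y * Z) * T b (mt P⁻¹) =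
            T b (mt P) * Y * 1 * Z * T b (mt P⁻¹) := by simp only [mul_assoc, one_mul]
          _ = _ := by rw [← e2]; simp only [mul_assoc]
      map_zero' := by rw [mul_zero, zero_mul]
      map_add' := fun Y Z => by rw [mul_add, add_mul]
      commutes' := fun a => by
        rw [← Algebra.commutes a, mul_assoc, e1, mul_one] }
  have hc : ∀ Y, c Y = T b (mt P) * Y * T b (mt P⁻¹) := fun Y => rfl
  let Γ' : Subgroup ((i : ι) → GL (J i) k) := Γ.map (MulAut.conj P⁻¹).toMonoidHom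
  have hΓ' : ∀ γ, γ ∈ Γ' → P * γ * P⁻¹ ∈ Γ := by
    rintro _ ⟨δ, hδ, rfl⟩
    have : P * (P⁻¹ * δ * P⁻¹⁻¹) * P⁻¹ = δ := by group
    show P * (P⁻¹ * δ * P⁻¹⁻¹) * P⁻¹ ∈ Γ
    rw [this]
    exact hδ
  have hmap : ∀ i, Γ'.map (Pi.evalMonoidHom (fun i => GL (J i) k) i) =
      cj (P i) (Γ.map (Pi.evalMonoidHom (fun i => GL (J i) k) i)) := by
    intro i
    rw [cj, Subgroup.map_map, Subgroup.map_map]
    rfl
  have h3 := dens_diag b h2 hN Γ' (fun i => by rw [hmap]; exact irred_conj (hirr i) (P i))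
    (fun i => by rw [hmap]; exact primit_conj (hprim i) (P i)) α hgen (S.comap c) ?_ ?_
    (fun i => (((P i)⁻¹ : GL (J i) k) : Matrix (J i) (J i) k) * x i *
      (P i : Matrix (J i) (J i) k))
  · have h4 : c (T b (fun i => (((P i)⁻¹ : GL (J i) k) : Matrix (J i) (J i) k) * x i *
      (P i : Matrix (J i) (J i) k))) = T b x := by
      rw [hc, ← map_mul, ← map_mul]
      congr 1
      funext i
      rw [Pi.mul_apply, Pi.mul_apply]
      show (P i : Matrix (J i) (J i) k) * (_ * x i * _) * (((P i)⁻¹ : GL (J i) k) :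
        Matrix (J i) (J i) k) = _
      rw [← mul_assoc, ← mul_assoc, gl_mul_inv, one_mul, mul_assoc, gl_mul_inv, mul_one]
    rw [← h4]
    exact h3
  · have h4 : c (T b (fun i => diagonal (α i))) = T b (mt g) := by
      rw [hc, ← map_mul, ← map_mul]
      congr 1
      funext i
      exact (hα i).symm
    show c (T b (fun i => diagonal (α i))) ∈ S
    rw [h4]
    exact hS g hg
  · intro γ hγ
    show c (T b (mt γ)) ∈ S
    rw [hc, ← map_mul, ← map_mul, ← hmt, ← hmt]
    exact hS _ (hΓ' γ hγ)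

/-- the hypotheses of the density lemma -/
structure Big [Fintype ι] [DecidableEq ι] (Γ : Subgroup ((i : ι) → GL (J i) k)) : Prop where
  two : (2 : k) ≠ 0
  fact : (((Fintype.card R).factorial : ℕ) : k) ≠ 0
  irr : ∀ i, Irred (Γ.map (Pi.evalMonoidHom (fun i => GL (J i) k) i))
  prim : ∀ i, Primit (Γ.map (Pi.evalMonoidHom (fun i => GL (J i) k) i))
  gen : ∃ g ∈ Γ, ∃ (P : (i : ι) → GL (J i) k) (α : (i : ι) → J i → k),
    (∀ i, (g i : Matrix (J i) (J i) k) = (P i : Matrix (J i) (J i) k) * diagonal (α i) *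
      (((P i)⁻¹ : GL (J i) k) : Matrix (J i) (J i) k)) ∧ Gen b α

variable {b}

/-- the tensor powers of the elements of `Γ` span those of all families of matrices -/
theorem Big.mem [Fintype ι] [DecidableEq ι] {Γ : Subgroup ((i : ι) → GL (J i) k)}
    (h : Big b Γ) (S : Subalgebra k (Matrix (Wd J b) (Wd J b) k))
    (hS : ∀ γ ∈ Γ, T b (mt γ) ∈ S) (x : (i : ι) → Matrix (J i) (J i) k) : T b x ∈ S := by
  obtain ⟨g, hg, P, α, h1, h2⟩ := h.gen
  exact dens b h.two h.fact Γ h.irr h.prim g hg P α h1 h2 S hS x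

theorem Big.span [Fintype ι] [DecidableEq ι] {Γ : Subgroup ((i : ι) → GL (J i) k)}
    (h : Big b Γ) (x : (i : ι) → Matrix (J i) (J i) k) :
    T b x ∈ Submodule.span k ((fun γ => T b (mt γ)) '' (Γ : Set ((i : ι) → GL (J i) k))) := by
  have h1 : Submodule.span k ((fun γ => T b (mt γ)) '' (Γ : Set ((i : ι) → GL (J i) k))) =
      Subalgebra.toSubmodule (Algebra.adjoin k
        ((fun γ => T b (mt γ)) '' (Γ : Set ((i : ι) → GL (J i) k)))) := by
    rw [Algebra.adjoin_eq_span]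
    congr 1
    let M : Submonoid (Matrix (Wd J b) (Wd J b) k) :=
      { carrier := (fun γ => T b (mt γ)) '' (Γ : Set ((i : ι) → GL (J i) k))
        one_mem' := ⟨1, Γ.one_mem, map_one (T b)⟩
        mul_mem' := by
          rintro _ _ ⟨γ, hγ, rfl⟩ ⟨δ, hδ, rfl⟩
          exact ⟨γ * δ, Γ.mul_mem hγ hδ, map_mul (T b) (mt γ) (mt δ)⟩ }
    exact congrArg (fun N : Submonoid _ => (N : Set (Matrix (Wd J b) (Wd J b) k)))
      (Submonoid.closure_eq M).symm
  rw [h1]
  exact h.mem (Algebra.adjoin k ((fun γ => T b (mt γ)) '' (Γ : Set ((i : ι) → GL (J i) k))))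
    (fun γ hγ => Algebra.subset_adjoin ⟨γ, hγ, rfl⟩) x

/-- the commutant -/
theorem Big.comm [Fintype ι] [DecidableEq ι] {Γ : Subgroup ((i : ι) → GL (J i) k)}
    (h : Big b Γ) (u : Matrix (Wd J b) (Wd J b) k)
    (hu : ∀ γ ∈ Γ, u * T b (mt γ) = T b (mt γ) * u) (x : (i : ι) → Matrix (J i) (J i) k) :
    u * T b x = T b x * u := by
  have h1 := h.mem (Subalgebra.centralizer k {u})
    (fun γ hγ => Subalgebra.mem_centralizer_iff k |>.2 fun v hv => by
      rw [Set.mem_singleton_iff.1 hv]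
      exact hu γ hγ) x
  exact (Subalgebra.mem_centralizer_iff k |>.1 h1) u rfl

/-- stable subspaces -/
theorem Big.stable [Fintype ι] [DecidableEq ι] {Γ : Subgroup ((i : ι) → GL (J i) k)}
    (h : Big b Γ) (U : Submodule k (Wd J b → k))
    (hU : ∀ γ ∈ Γ, ∀ u ∈ U, T b (mt γ) *ᵥ u ∈ U) (x : (i : ι) → Matrix (J i) (J i) k) :
    ∀ u ∈ U, T b x *ᵥ u ∈ U := by
  let S : Subalgebra k (Matrix (Wd J b) (Wd J b) k) :=
    { carrier := {Y | ∀ u ∈ U, Y *ᵥ u ∈ U}
      mul_mem' := fun {Y Z} hY hZ u hu => by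
        rw [← mulVec_mulVec]
        exact hY _ (hZ u hu)
      add_mem' := fun {Y Z} hY hZ u hu => by
        rw [add_mulVec]
        exact U.add_mem (hY u hu) (hZ u hu)
      algebraMap_mem' := fun c u hu => by
        rw [Algebra.algebraMap_eq_smul_one, smul_mulVec, one_mulVec]
        exact U.smul_mem c hu }
  exact h.mem S hU x

end

end Pool.Agent.Helper47.TG
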