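import Pool.Agent.Helper47.TG.Newt

/-!
Density lemma, part 4 (MP_78e9a5_nt, TensorGenerated): a group which acts irreducibly and
primitively on each factor and which contains an element with generic eigenvalues has the same
span on the tensor products as the product of the full linear groups.
-/

open Matrix

namespace Pool.Agent.Helper47.TG

section

variable {k : Type*} [Field k] {ι : Type*} {J : ι → Type*} [∀ i, Fintype (J i)]
  [∀ i, DecidableEq (J i)] {R : Type*} [Fintype R] [DecidableEq R] (b : R → ι)

theorem T_diagonal (d : (i : ι) → J i → k) :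
    T b (fun i => diagonal (d i)) = diagonal fun q : Wd J b => ∏ r, d (b r) (q r) := by
  ext p q
  rw [T_apply, TT_apply]
  by_cases h : p = q
  · subst h
    rw [diagonal_apply_eq]
    exact Finset.prod_congr rfl fun r _ => by rw [diagonal_apply_eq]
  · rw [diagonal_apply_ne _ h]
    obtain ⟨r, hr⟩ : ∃ r, p r ≠ q r := by
      by_contra hcon
      push Not at hcon
      exact h (funext hcon)
    exact Finset.prod_eq_zero (Finset.mem_univ r) (diagonal_apply_ne _ hr)

theorem slot_diagonal (r : R) (d : J (b r) → k) :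
    slot b r (diagonal d) = diagonal fun q : Wd J b => d (q r) := by
  ext p q
  rw [slot_apply, TT_apply, ← Finset.mul_prod_erase _ _ (Finset.mem_univ r), Pi.mulSingle_eq_same]
  by_cases h : p = q
  · subst h
    rw [diagonal_apply_eq, diagonal_apply_eq, Finset.prod_eq_one, mul_one]
    intro s hs
    rw [Pi.mulSingle_eq_of_ne (Finset.ne_of_mem_erase hs), Matrix.one_apply_eq]
  · rw [diagonal_apply_ne _ h]
    by_cases h1 : p r = q r
    · obtain ⟨s, hs⟩ : ∃ s, p s ≠ q s := by
        by_contra hcon
        push Not at hcon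
        exact h (funext hcon)
      have hsr : s ≠ r := fun h2 => hs (h2 ▸ h1)
      rw [Finset.prod_eq_zero (Finset.mem_erase.2 ⟨hsr, Finset.mem_univ s⟩), mul_zero]
      rw [Pi.mulSingle_eq_of_ne hsr, Matrix.one_apply_ne hs]
    · rw [diagonal_apply_ne _ h1, zero_mul]

theorem L_diagonal (d : (i : ι) → J i → k) :
    L b (fun i => diagonal (d i)) = diagonal fun q : Wd J b => ∑ r, d (b r) (q r) := by
  rw [L_apply]
  simp only [slot_diagonal]
  ext p q
  rw [Matrix.sum_apply]
  by_cases h : p = q
  · subst h
    simp only [diagonal_apply_eq]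
  · simp only [diagonal_apply_ne _ h, Finset.sum_const_zero]

/-- the letters of a word -/
def letters (q : Wd J b) : Multiset (Σ i, J i) :=
  (Finset.univ : Finset R).val.map fun r => ⟨b r, q r⟩

/-- the eigenvalues `α` are generic: the products over the letters of two words agree only if the
words have the same letters -/
def Gen (α : (i : ι) → J i → k) : Prop := ∀ q q' : Wd J b,
  ∏ r, α (b r) (q r) = ∏ r, α (b r) (q' r) → letters b q = letters b q'

omit [∀ i, Fintype (J i)] [∀ i, DecidableEq (J i)] [DecidableEq R] in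
theorem sum_of_letters {M : Type*} [AddCommMonoid M] (d : (i : ι) → J i → M) {q q' : Wd J b}
    (h : letters b q = letters b q') : ∑ r, d (b r) (q r) = ∑ r, d (b r) (q' r) := by
  have h1 : ∀ q : Wd J b, ∑ r, d (b r) (q r) =
      ((letters b q).map fun x : (Σ i, J i) => d x.1 x.2).sum := by
    intro q
    rw [letters, Multiset.map_map]
    rfl
  rw [h1, h1, h]

/-- a function of the eigenvalue -/
theorem diag_mem (S : Subalgebra k (Matrix (Wd J b) (Wd J b) k)) (α : (i : ι) → J i → k)
    (hS : T b (fun i => diagonal (α i)) ∈ S) (hgen : Gen b α) (d : (i : ι) → J i → k) :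
    L b (fun i => diagonal (d i)) ∈ S := by
  classical
  rw [T_diagonal] at hS
  rw [L_diagonal]
  let ev : Wd J b → k := fun q => ∏ r, α (b r) (q r)
  let F : k → k := fun t => if h : ∃ q : Wd J b, ev q = t then
    ∑ r, d (b r) (h.choose r) else 0
  have hF : ∀ q : Wd J b, F (ev q) = ∑ r, d (b r) (q r) := by
    intro q
    have h : ∃ q' : Wd J b, ev q' = ev q := ⟨q, rfl⟩
    show (if h : ∃ q' : Wd J b, ev q' = ev q then ∑ r, d (b r) (h.choose r) else 0) = _
    rw [dif_pos h]
    exact sum_of_letters b d (hgen _ _ h.choose_spec)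
  let P : Polynomial k := Lagrange.interpolate (Finset.univ.image ev) id F
  have hP : ∀ q : Wd J b, P.eval (ev q) = ∑ r, d (b r) (q r) := by
    intro q
    rw [← hF q]
    exact Lagrange.eval_interpolate_at_node F (Set.injOn_id _)
      (Finset.mem_image_of_mem ev (Finset.mem_univ q))
  have h1 : Polynomial.aeval (diagonal ev : Matrix (Wd J b) (Wd J b) k) P =
      diagonal fun q : Wd J b => ∑ r, d (b r) (q r) := by
    have h2 := Polynomial.aeval_algHom_apply (Matrix.diagonalAlgHom (n := Wd J b) (α := k) k) ev P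
    have h3 : Matrix.diagonalAlgHom (n := Wd J b) (α := k) k ev = diagonal ev := rfl
    rw [h3] at h2
    rw [h2]
    show diagonal (Polynomial.aeval ev P) = _
    congr 1
    funext q
    rw [← hP q]
    have h4 := Polynomial.aeval_algHom_apply (Pi.evalAlgHom k (fun _ : Wd J b => k) q) ev P
    rw [← Polynomial.coe_aeval_eq_eval]
    exact h4.symm
  rw [← h1]
  exact (Algebra.adjoin_le (Set.singleton_subset_iff.2 hS))
    (Polynomial.aeval_mem_adjoin_singleton k _)

/-- the matrices of the elements of the product of the linear groups -/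
def mt (γ : (i : ι) → GL (J i) k) (i : ι) : Matrix (J i) (J i) k := (γ i : Matrix (J i) (J i) k)

/-- the density lemma for a diagonal generic element -/
theorem dens_diag [Fintype ι] [DecidableEq ι] (h2 : (2 : k) ≠ 0)
    (hN : (((Fintype.card R).factorial : ℕ) : k) ≠ 0) (Γ : Subgroup ((i : ι) → GL (J i) k))
    (hirr : ∀ i, Irred (Γ.map (Pi.evalMonoidHom (fun i => GL (J i) k) i)))
    (hprim : ∀ i, Primit (Γ.map (Pi.evalMonoidHom (fun i => GL (J i) k) i)))
    (α : (i : ι) → J i → k) (hgen : Gen b α)
    (S : Subalgebra k (Matrix (Wd J b) (Wd J b) k)) (hα : T b (fun i => diagonal (α i)) ∈ S)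
    (hS : ∀ γ ∈ Γ, T b (mt γ) ∈ S) (x : (i : ι) → Matrix (J i) (J i) k) : T b x ∈ S := by
  classical
  refine T_mem b S (fun X => ?_) hN x
  let f : ∀ i, Matrix (J i) (J i) k →ₗ[k] Matrix (Wd J b) (Wd J b) k := fun i =>
    L b ∘ₗ LinearMap.single k (fun i => Matrix (J i) (J i) k) i
  have hf : ∀ i Y, f i Y = L b (Pi.single i Y) := fun i Y => rfl
  have htop : ∀ i, (Subalgebra.toSubmodule S).comap (f i) = ⊤ := by
    intro i
    refine lie_top h2 _ (fun j => ?_) (fun Y hY Z hZ => ?_)
      (Γ.map (Pi.evalMonoidHom (fun i => GL (J i) k) i)) ?_ (hirr i) (hprim i)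
    · rw [Submodule.mem_comap, hf, Subalgebra.mem_toSubmodule]
      have h1 : (Pi.single i (single j j (1 : k)) : (i : ι) → Matrix (J i) (J i) k) =
          fun i' => diagonal ((Pi.single i (Pi.single j 1) : (i : ι) → J i → k) i') := by
        funext i'
        by_cases h : i' = i
        · subst h
          rw [Pi.single_eq_same, Pi.single_eq_same, diagonal_single]
        · rw [Pi.single_eq_of_ne h, Pi.single_eq_of_ne h]
          exact (diagonal_zero).symm
      rw [h1]
      exact diag_mem b S α hα hgen _
    · rw [Submodule.mem_comap, hf, Subalgebra.mem_toSubmodule] at hY hZ ⊢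
      have h1 : (Pi.single i (Y * Z - Z * Y) : (i : ι) → Matrix (J i) (J i) k) =
          Pi.single i Y * Pi.single i Z - Pi.single i Z * Pi.single i Y := by
        rw [Pi.single_sub, Pi.single_mul, Pi.single_mul]
      rw [h1, L_bracket]
      exact S.sub_mem (S.mul_mem hY hZ) (S.mul_mem hZ hY)
    · rintro _ ⟨γ, hγ, rfl⟩ Y hY
      rw [Submodule.mem_comap, hf, Subalgebra.mem_toSubmodule] at hY ⊢
      have h1 := T_L b γ (Pi.single i Y)
      have h3 : (fun i' => (γ i' : Matrix (J i') (J i') k) *
          (Pi.single i Y : (i : ι) → Matrix (J i) (J i) k) i' *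
          ((γ⁻¹ i' : GL (J i') k) : Matrix (J i') (J i') k)) =
          Pi.single i ((γ i : Matrix (J i) (J i) k) * Y *
          (((γ i)⁻¹ : GL (J i) k) : Matrix (J i) (J i) k)) := by
        funext i'
        by_cases h : i' = i
        · subst h
          rw [Pi.single_eq_same, Pi.single_eq_same, Pi.inv_apply]
        · rw [Pi.single_eq_of_ne h, Pi.single_eq_of_ne h, mul_zero, zero_mul]
      rw [h3] at h1
      have h4 := S.mul_mem (S.mul_mem (hS γ hγ) hY) (hS γ⁻¹ (Γ.inv_mem hγ))
      have h5 : T b (mt γ) * L b (Pi.single i Y) * T b (mt γ⁻¹) =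
          L b (Pi.single i ((γ i : Matrix (J i) (J i) k) * Y *
          (((γ i)⁻¹ : GL (J i) k) : Matrix (J i) (J i) k))) := h1
      rw [h5] at h4
      exact h4
  have h1 : X = ∑ i, Pi.single i (X i) := (Finset.univ_sum_single X).symm
  rw [h1, map_sum]
  refine S.sum_mem fun i _ => ?_
  have h3 : X i ∈ (Subalgebra.toSubmodule S).comap (f i) := by
    rw [htop i]
    exact Submodule.mem_top
  exact h3

end

end Pool.Agent.Helper47.TG
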