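import Pool.Agent.Helper47.TG.Tens

/-!
Density lemma, part 3 (MP_78e9a5_nt, TensorGenerated): the tensor power is a polynomial in the
action of the Lie algebra (Newton's identities).
-/

open Matrix

namespace Pool.Agent.Helper47.TG

section

variable {k : Type*} [Field k] {R : Type*} [Fintype R]

theorem esymm_mem {C : Type*} [CommRing C] [Algebra k C] (z : R → C) (S : Subalgebra k C)
    (hp : ∀ j, 1 ≤ j → ∑ r, z r ^ j ∈ S) (N : ℕ) (hN : ((N.factorial : ℕ) : k) ≠ 0) :
    ∀ j ≤ N, MvPolynomial.aeval z (MvPolynomial.esymm R k j) ∈ S := by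
  intro j
  induction j using Nat.strong_induction_on with
  | _ j ih =>
    intro hj
    rcases Nat.eq_zero_or_pos j with rfl | hj0
    · rw [MvPolynomial.esymm_zero, map_one]
      exact S.one_mem
    · have h1 := congrArg (MvPolynomial.aeval z) (MvPolynomial.mul_esymm_eq_sum R k j)
      rw [map_mul, map_mul, map_sum, map_natCast] at h1
      have h2 : ((j : ℕ) : C) * MvPolynomial.aeval z (MvPolynomial.esymm R k j) ∈ S := by
        rw [h1]
        refine S.mul_mem ?_ (S.sum_mem fun a ha => ?_)
        · rw [map_pow, map_neg, map_one]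
          exact S.pow_mem (S.neg_mem S.one_mem) _
        · rw [Finset.mem_filter, Finset.HasAntidiagonal.mem_antidiagonal] at ha
          rw [map_mul, map_mul, map_pow, map_neg, map_one]
          refine S.mul_mem (S.mul_mem (S.pow_mem (S.neg_mem S.one_mem) _) ?_) ?_
          · exact ih a.1 ha.2 (by omega)
          · rw [MvPolynomial.psum, map_sum]
            simp only [map_pow, MvPolynomial.aeval_X]
            exact hp a.2 (by omega)
      have h3 : ((j : ℕ) : k) ≠ 0 := by
        intro h0
        refine hN ?_
        obtain ⟨c, hc⟩ := Nat.dvd_factorial hj0 hj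
        rw [hc, Nat.cast_mul, h0, zero_mul]
      have h4 : ((j : ℕ) : C) * MvPolynomial.aeval z (MvPolynomial.esymm R k j) =
          ((j : ℕ) : k) • MvPolynomial.aeval z (MvPolynomial.esymm R k j) := by
        rw [Algebra.smul_def, map_natCast]
      rw [h4] at h2
      have h5 := S.smul_mem h2 (((j : ℕ) : k)⁻¹)
      rwa [smul_smul, inv_mul_cancel₀ h3, one_smul] at h5

theorem prod_mem {C : Type*} [CommRing C] [Algebra k C] (z : R → C) (S : Subalgebra k C)
    (hp : ∀ j, 1 ≤ j → ∑ r, z r ^ j ∈ S)
    (hN : (((Fintype.card R).factorial : ℕ) : k) ≠ 0) : ∏ r, z r ∈ S := by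
  have h1 := esymm_mem z S hp (Fintype.card R) hN (Fintype.card R) le_rfl
  rw [MvPolynomial.esymm, map_sum, ← Finset.card_univ, Finset.powersetCard_self,
    Finset.sum_singleton, map_prod] at h1
  simpa only [MvPolynomial.aeval_X] using h1

end

section

variable {k : Type*} [Field k] {ι : Type*} {J : ι → Type*} [∀ i, Fintype (J i)]
  [∀ i, DecidableEq (J i)] {R : Type*} [Fintype R] [DecidableEq R] (b : R → ι)

open scoped IsMulCommutative in
theorem T_mem_aux (S C : Subalgebra k (Matrix (Wd J b) (Wd J b) k)) [IsMulCommutative C]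
    (hL : ∀ X : (i : ι) → Matrix (J i) (J i) k, L b X ∈ S)
    (hN : (((Fintype.card R).factorial : ℕ) : k) ≠ 0) (x : (i : ι) → Matrix (J i) (J i) k)
    (hz : ∀ r, slot b r (x (b r)) ∈ C) : T b x ∈ S := by
  classical
  let z : R → C := fun r => ⟨slot b r (x (b r)), hz r⟩
  have h1 := prod_mem (k := k) z (S.comap C.val) ?_ hN
  · have h2 : C.val (∏ r, z r) ∈ S := h1
    have h3 : ∀ u : Finset R, C.val (∏ r ∈ u, z r) =
        TT b fun r => if r ∈ u then x (b r) else 1 := by
      intro u
      induction u using Finset.induction_on with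
      | empty =>
        rw [Finset.prod_empty, map_one]
        simp only [Finset.notMem_empty, if_false]
        exact (map_one (TT b)).symm
      | insert r u hr ih =>
        rw [Finset.prod_insert hr, map_mul, ih]
        show slot b r (x (b r)) * _ = _
        rw [slot_apply, ← map_mul]
        congr 1
        funext s
        rw [Pi.mul_apply]
        by_cases h : s = r
        · subst h
          rw [Pi.mulSingle_eq_same, if_neg hr, mul_one, if_pos (Finset.mem_insert_self _ _)]
        · rw [Pi.mulSingle_eq_of_ne h, one_mul]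
          simp only [Finset.mem_insert, h, false_or]
    rw [h3] at h2
    simp only [Finset.mem_univ, if_true] at h2
    exact h2
  · intro j hj
    show C.val (∑ r, z r ^ j) ∈ S
    have h3 : C.val (∑ r, z r ^ j) = L b (fun i => x i ^ j) := by
      rw [map_sum, L_apply]
      refine Finset.sum_congr rfl fun r _ => ?_
      rw [map_pow, map_pow]
      rfl
    rw [h3]
    exact hL _

/-- the tensor power of `x` lies in every algebra which contains the action of the Lie algebra -/
theorem T_mem (S : Subalgebra k (Matrix (Wd J b) (Wd J b) k))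
    (hL : ∀ X : (i : ι) → Matrix (J i) (J i) k, L b X ∈ S)
    (hN : (((Fintype.card R).factorial : ℕ) : k) ≠ 0) (x : (i : ι) → Matrix (J i) (J i) k) :
    T b x ∈ S := by
  have hs : ∀ a ∈ (Set.range fun r => slot b r (x (b r)) : Set (Matrix (Wd J b) (Wd J b) k)),
      ∀ c ∈ (Set.range fun r => slot b r (x (b r)) : Set (Matrix (Wd J b) (Wd J b) k)),
      a * c = c * a := by
    rintro _ ⟨r, rfl⟩ _ ⟨r', rfl⟩
    by_cases h : r = r'
    · subst h
      rfl
    · exact (slot_comm b h _ _).eq
  have hC := Algebra.isMulCommutative_adjoin k hs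
  exact T_mem_aux b S (Algebra.adjoin k (Set.range fun r => slot b r (x (b r)))) hL hN x
    fun r => Algebra.subset_adjoin ⟨r, rfl⟩

end

end Pool.Agent.Helper47.TG
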