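import Pool.Agent.Helper47.TG.Blk

/-!
Density lemma, part 2 (MP_78e9a5_nt, TensorGenerated): tensor products of matrices.
-/

open Matrix

namespace Pool.Agent.Helper47.TG

section

variable {k : Type*} [Field k] {ι : Type*} {J : ι → Type*} [∀ i, Fintype (J i)]
  [∀ i, DecidableEq (J i)] {R : Type*} [Fintype R] [DecidableEq R] (b : R → ι)

/-- words: one basis vector for each factor -/
abbrev Wd (J : ι → Type*) (b : R → ι) : Type _ := (r : R) → J (b r)

/-- the tensor product of the matrices `y r` -/
def TT : ((r : R) → Matrix (J (b r)) (J (b r)) k) →* Matrix (Wd J b) (Wd J b) k where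
  toFun y := Matrix.of fun p q => ∏ r, y r (p r) (q r)
  map_one' := by
    ext p q
    rw [Matrix.of_apply, Matrix.one_apply]
    by_cases h : p = q
    · subst h
      rw [if_pos rfl]
      exact Finset.prod_eq_one fun r _ => by rw [Pi.one_apply, Matrix.one_apply_eq]
    · rw [if_neg h]
      obtain ⟨r, hr⟩ : ∃ r, p r ≠ q r := by
        by_contra hcon
        push Not at hcon
        exact h (funext hcon)
      exact Finset.prod_eq_zero (Finset.mem_univ r) (by rw [Pi.one_apply, Matrix.one_apply_ne hr])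
  map_mul' x y := by
    ext p q
    rw [Matrix.of_apply, Matrix.mul_apply]
    simp only [Pi.mul_apply, Matrix.mul_apply, Matrix.of_apply]
    rw [Finset.prod_univ_sum]
    rw [Fintype.piFinset_univ]
    exact Finset.sum_congr rfl fun s _ => Finset.prod_mul_distrib

theorem TT_apply (y : (r : R) → Matrix (J (b r)) (J (b r)) k) (p q : Wd J b) :
    TT b y p q = ∏ r, y r (p r) (q r) := rfl

/-- a matrix in the factor `r` -/
def slot (r : R) : Matrix (J (b r)) (J (b r)) k →ₐ[k] Matrix (Wd J b) (Wd J b) k where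
  toFun X := TT b (Pi.mulSingle r X)
  map_one' := by rw [Pi.mulSingle_one, map_one]
  map_mul' X Y := by rw [Pi.mulSingle_mul, map_mul]
  map_zero' := by
    ext p q
    rw [TT_apply]
    exact Finset.prod_eq_zero (Finset.mem_univ r) (by rw [Pi.mulSingle_eq_same]; rfl)
  map_add' X Y := by
    ext p q
    rw [Matrix.add_apply, TT_apply, TT_apply, TT_apply,
      ← Finset.mul_prod_erase _ _ (Finset.mem_univ r),
      ← Finset.mul_prod_erase _ _ (Finset.mem_univ r),
      ← Finset.mul_prod_erase _ _ (Finset.mem_univ r), Pi.mulSingle_eq_same, Pi.mulSingle_eq_same,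
      Pi.mulSingle_eq_same, Matrix.add_apply, add_mul]
    congr 1
    · congr 1
      refine Finset.prod_congr rfl fun s hs => ?_
      rw [Pi.mulSingle_eq_of_ne (Finset.ne_of_mem_erase hs),
        Pi.mulSingle_eq_of_ne (Finset.ne_of_mem_erase hs)]
    · congr 1
      refine Finset.prod_congr rfl fun s hs => ?_
      rw [Pi.mulSingle_eq_of_ne (Finset.ne_of_mem_erase hs),
        Pi.mulSingle_eq_of_ne (Finset.ne_of_mem_erase hs)]
  commutes' c := by
    ext p q
    rw [TT_apply, ← Finset.mul_prod_erase _ _ (Finset.mem_univ r), Pi.mulSingle_eq_same,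
      Matrix.algebraMap_matrix_apply, Matrix.algebraMap_matrix_apply]
    by_cases h : p = q
    · subst h
      rw [if_pos rfl, if_pos rfl, Finset.prod_eq_one, mul_one]
      intro s hs
      rw [Pi.mulSingle_eq_of_ne (Finset.ne_of_mem_erase hs), Matrix.one_apply_eq]
    · rw [if_neg h]
      by_cases h1 : p r = q r
      · obtain ⟨s, hs⟩ : ∃ s, p s ≠ q s := by
          by_contra hcon
          push Not at hcon
          exact h (funext hcon)
        have hsr : s ≠ r := fun h2 => hs (h2 ▸ h1)
        rw [Finset.prod_eq_zero (Finset.mem_erase.2 ⟨hsr, Finset.mem_univ s⟩), mul_zero]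
        rw [Pi.mulSingle_eq_of_ne hsr, Matrix.one_apply_ne hs]
      · rw [if_neg h1, zero_mul]

theorem slot_apply (r : R) (X : Matrix (J (b r)) (J (b r)) k) :
    slot b r X = TT b (Pi.mulSingle r X) := rfl

theorem slot_comm {r s : R} (h : r ≠ s) (X : Matrix (J (b r)) (J (b r)) k)
    (Y : Matrix (J (b s)) (J (b s)) k) : Commute (slot b r X) (slot b s Y) := by
  rw [slot_apply, slot_apply]
  exact (Pi.mulSingle_commute h X Y).map (TT b)

/-- the tensor power -/
def T : ((i : ι) → Matrix (J i) (J i) k) →* Matrix (Wd J b) (Wd J b) k where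
  toFun x := TT b fun r => x (b r)
  map_one' := map_one (TT b)
  map_mul' x y := map_mul (TT b) (fun r => x (b r)) (fun r => y (b r))

theorem T_apply (x : (i : ι) → Matrix (J i) (J i) k) : T b x = TT b fun r => x (b r) := rfl

/-- the action of the Lie algebra -/
def L : ((i : ι) → Matrix (J i) (J i) k) →ₗ[k] Matrix (Wd J b) (Wd J b) k :=
  ∑ r, (slot b r).toLinearMap ∘ₗ LinearMap.proj (b r)

theorem L_apply (X : (i : ι) → Matrix (J i) (J i) k) : L b X = ∑ r, slot b r (X (b r)) := by
  rw [L, LinearMap.sum_apply]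
  rfl

theorem L_bracket (X Y : (i : ι) → Matrix (J i) (J i) k) :
    L b (X * Y - Y * X) = L b X * L b Y - L b Y * L b X := by
  rw [map_sub, L_apply, L_apply, L_apply, L_apply, Finset.sum_mul_sum, Finset.sum_mul_sum]
  have h1 : ∀ A B : (i : ι) → Matrix (J i) (J i) k,
      ∑ r, ∑ s, slot b r (A (b r)) * slot b s (B (b s)) =
      ∑ r, slot b r ((A * B) (b r)) +
      ∑ r, ∑ s ∈ Finset.univ.erase r, slot b r (A (b r)) * slot b s (B (b s)) := by
    intro A B
    rw [← Finset.sum_add_distrib]
    refine Finset.sum_congr rfl fun r _ => ?_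
    rw [← Finset.add_sum_erase _ _ (Finset.mem_univ r), Pi.mul_apply, map_mul]
  rw [h1, h1]
  have h2 : ∑ r, ∑ s ∈ Finset.univ.erase r, slot b r (X (b r)) * slot b s (Y (b s)) =
      ∑ r, ∑ s ∈ Finset.univ.erase r, slot b r (Y (b r)) * slot b s (X (b s)) := by
    rw [Finset.sum_sigma', Finset.sum_sigma']
    refine Finset.sum_nbij' (fun x => ⟨x.2, x.1⟩) (fun x => ⟨x.2, x.1⟩) ?_ ?_ ?_ ?_ ?_
    · intro x hx
      simp only [Finset.mem_sigma, Finset.mem_univ, Finset.mem_erase, true_and, and_true,
        ne_eq] at hx ⊢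
      exact fun h => hx h.symm
    · intro x hx
      simp only [Finset.mem_sigma, Finset.mem_univ, Finset.mem_erase, true_and, and_true,
        ne_eq] at hx ⊢
      exact fun h => hx h.symm
    · intro x _
      rfl
    · intro x _
      rfl
    · intro x hx
      simp only [Finset.mem_sigma, Finset.mem_univ, Finset.mem_erase, true_and, and_true,
        ne_eq] at hx
      exact (slot_comm b (fun h => hx h.symm) _ _).eq
  rw [h2]
  abel

theorem T_L (γ : (i : ι) → GL (J i) k) (X : (i : ι) → Matrix (J i) (J i) k) :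
    T b (fun i => (γ i : Matrix (J i) (J i) k)) * L b X *
      T b (fun i => ((γ⁻¹ i : GL (J i) k) : Matrix (J i) (J i) k)) =
    L b (fun i => (γ i : Matrix (J i) (J i) k) * X i *
      ((γ⁻¹ i : GL (J i) k) : Matrix (J i) (J i) k)) := by
  rw [L_apply, L_apply, Finset.mul_sum, Finset.sum_mul]
  refine Finset.sum_congr rfl fun r _ => ?_
  rw [T_apply, T_apply, slot_apply, slot_apply, ← map_mul, ← map_mul]
  congr 1
  funext s
  rw [Pi.mul_apply, Pi.mul_apply]
  by_cases h : s = r
  · subst h
    rw [Pi.mulSingle_eq_same, Pi.mulSingle_eq_same]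
  · rw [Pi.mulSingle_eq_of_ne h, Pi.mulSingle_eq_of_ne h, mul_one, ← Units.val_mul, Pi.inv_apply,
      mul_inv_cancel, Units.val_one]

end

end Pool.Agent.Helper47.TG
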